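import Mathlib
import Pool.Agent.Run7.h424.J.Tr
import Pool.Agent.Run7.h289.D18.Fn

/-!
# The joint law for the criterion: all patterns
-/

set_option autoImplicit false

open scoped Classical
open Finset Filter

namespace Pool.Agent.Run7.h238.J

open Pool.Agent.N969.P15 (Qc)
open Pool.Agent.Run7.h424.J (tw_spec tw_mod dens_JNf)
open Pool.Agent.Run7.h843.G (Nf)
open Run7.h843.L (gk gk_eq Qn)

theorem gk_zero : gk 0 = Pool.Agent.N916.GB.eta := by
  rw [gk_eq]
  unfold Qn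
  simp

theorem tw_gt {a n : ℕ} (ha : Squarefree a) (hn : Squarefree n) (ha4 : a % 4 = 1)
    (hn4 : n % 4 = 3) : 1 < tw a n := by
  have := tw_mod ha hn ha4 hn4
  omega

theorem Nf_iff {m : ℕ} (h1 : 1 < m) : Nf m = 2 ↔ Qc m := Pool.Agent.Run7.h289.D18.Nf_two h1

/-- the joint law for an injective family of multipliers -/
theorem dens_fam {N : ℕ} (hJ : S_JDQ (fun _ : Fin N => 0)) (a : Fin N → ℕ)
    (ha : Function.Injective a) (hsa : ∀ k, Squarefree (a k)) (ha4 : ∀ k, a k % 4 = 1)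
    (M : ℕ) (hM : 8 ∣ M) (hM0 : 0 < M) (P : ℕ → Prop) (hP : ∀ n, P n ↔ P (n % M))
    (h4 : ∀ n, P n → n % 4 = 3) (b : ℕ) (hb : P b) (hc : b.Coprime M) :
    Tendsto (fun X : ℕ => (((Icc 1 X).filter fun n => Squarefree n ∧ P n ∧
      ∀ k, Qc (tw (a k) n)).card : ℝ) /
      (((Icc 1 X).filter fun n => Squarefree n ∧ P n).card : ℝ)) atTop
      (nhds (Pool.Agent.N916.GB.eta ^ N)) := by
  have h := dens_JNf (fun _ : Fin N => 0) hJ a ha hsa ha4 M hM hM0 P hP h4 b hb hc
  have e : ∏ _k : Fin N, gk 0 = Pool.Agent.N916.GB.eta ^ N := by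
    rw [prod_const, card_univ, Fintype.card_fin, gk_zero]
  rw [e] at h
  refine h.congr fun X => ?_
  congr 3
  refine filter_congr fun n _ => ?_
  constructor
  · rintro ⟨h1, h2, h3⟩
    exact ⟨h1, h2, fun k => (Nf_iff (tw_gt (hsa k) h1 (ha4 k) (h4 n h2))).1 (h3 k)⟩
  · rintro ⟨h1, h2, h3⟩
    exact ⟨h1, h2, fun k => (Nf_iff (tw_gt (hsa k) h1 (ha4 k) (h4 n h2))).2 (h3 k)⟩

/-- the joint law for a finite set of multipliers -/
theorem dens_set (hJ : ∀ N : ℕ, S_JDQ (fun _ : Fin N => 0)) (S : Finset ℕ)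
    (hsa : ∀ a ∈ S, Squarefree a) (ha4 : ∀ a ∈ S, a % 4 = 1)
    (M : ℕ) (hM : 8 ∣ M) (hM0 : 0 < M) (P : ℕ → Prop) (hP : ∀ n, P n ↔ P (n % M))
    (h4 : ∀ n, P n → n % 4 = 3) (b : ℕ) (hb : P b) (hc : b.Coprime M) :
    Tendsto (fun X : ℕ => (((Icc 1 X).filter fun n => Squarefree n ∧ P n ∧
      ∀ a ∈ S, Qc (tw a n)).card : ℝ) /
      (((Icc 1 X).filter fun n => Squarefree n ∧ P n).card : ℝ)) atTop
      (nhds (Pool.Agent.N916.GB.eta ^ S.card)) := by
  have h := dens_fam (hJ S.card) (fun k => (S.equivFin.symm k : ℕ))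
    (fun i j hij => S.equivFin.symm.injective (Subtype.ext hij))
    (fun k => hsa _ (S.equivFin.symm k).2) (fun k => ha4 _ (S.equivFin.symm k).2)
    M hM hM0 P hP h4 b hb hc
  refine h.congr fun X => ?_
  congr 3
  refine filter_congr fun n _ => ?_
  constructor
  · rintro ⟨h1, h2, h3⟩
    refine ⟨h1, h2, fun a ha => ?_⟩
    have h5 := h3 (S.equivFin ⟨a, ha⟩)
    rw [Equiv.symm_apply_apply] at h5
    exact h5
  · rintro ⟨h1, h2, h3⟩
    exact ⟨h1, h2, fun k => h3 _ (S.equivFin.symm k).2⟩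

/-- **All patterns**: exactly the multipliers in `T` satisfy the criterion. -/
theorem dens_pat (hJ : ∀ N : ℕ, S_JDQ (fun _ : Fin N => 0)) (T R : Finset ℕ) (hTR : Disjoint T R)
    (hsa : ∀ a ∈ T ∪ R, Squarefree a) (ha4 : ∀ a ∈ T ∪ R, a % 4 = 1)
    (M : ℕ) (hM : 8 ∣ M) (hM0 : 0 < M) (P : ℕ → Prop) (hP : ∀ n, P n ↔ P (n % M))
    (h4 : ∀ n, P n → n % 4 = 3) (b : ℕ) (hb : P b) (hc : b.Coprime M) :
    Tendsto (fun X : ℕ => (((Icc 1 X).filter fun n => Squarefree n ∧ P n ∧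
      (∀ a ∈ T, Qc (tw a n)) ∧ ∀ a ∈ R, ¬ Qc (tw a n)).card : ℝ) /
      (((Icc 1 X).filter fun n => Squarefree n ∧ P n).card : ℝ)) atTop
      (nhds (Pool.Agent.N916.GB.eta ^ T.card * (1 - Pool.Agent.N916.GB.eta) ^ R.card)) := by
  induction R using Finset.induction_on generalizing T with
  | empty =>
    have h := dens_set hJ T (fun a ha => hsa a (mem_union_left _ ha))
      (fun a ha => ha4 a (mem_union_left _ ha)) M hM hM0 P hP h4 b hb hc
    rw [card_empty, pow_zero, mul_one]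
    refine h.congr fun X => ?_
    congr 3
    refine filter_congr fun n _ => ?_
    simp
  | insert c R hcR ih =>
    have hcT : c ∉ T := fun h => (Finset.disjoint_left.1 hTR h) (mem_insert_self c R)
    have h1 := ih T (Finset.disjoint_of_subset_right (subset_insert c R) hTR)
      (fun a ha => hsa a (by
        rw [mem_union] at ha ⊢
        exact ha.imp id fun h => mem_insert_of_mem h))
      (fun a ha => ha4 a (by
        rw [mem_union] at ha ⊢
        exact ha.imp id fun h => mem_insert_of_mem h))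
    have h2 := ih (insert c T) (by
        rw [Finset.disjoint_insert_left]
        exact ⟨hcR, Finset.disjoint_of_subset_right (subset_insert c R) hTR⟩)
      (fun a ha => hsa a (by
        rw [mem_union, mem_insert] at ha
        rw [mem_union, mem_insert]
        tauto))
      (fun a ha => ha4 a (by
        rw [mem_union, mem_insert] at ha
        rw [mem_union, mem_insert]
        tauto))
    have h3 := h1.sub h2
    rw [card_insert_of_notMem hcT] at h3
    rw [card_insert_of_notMem hcR]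
    have e : Pool.Agent.N916.GB.eta ^ T.card * (1 - Pool.Agent.N916.GB.eta) ^ R.card -
        Pool.Agent.N916.GB.eta ^ (T.card + 1) * (1 - Pool.Agent.N916.GB.eta) ^ R.card =
        Pool.Agent.N916.GB.eta ^ T.card * (1 - Pool.Agent.N916.GB.eta) ^ (R.card + 1) := by ring
    rw [e] at h3
    refine h3.congr fun X => ?_
    rw [← sub_div]
    congr 1
    have h5 := Finset.card_filter_add_card_filter_not (s := (Icc 1 X).filter fun n =>
      Squarefree n ∧ P n ∧ (∀ a ∈ T, Qc (tw a n)) ∧ ∀ a ∈ R, ¬ Qc (tw a n)) (fun n => Qc (tw c n))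
    rw [filter_filter, filter_filter] at h5
    have e1 : ((Icc 1 X).filter fun n => (Squarefree n ∧ P n ∧ (∀ a ∈ T, Qc (tw a n)) ∧
        ∀ a ∈ R, ¬ Qc (tw a n)) ∧ Qc (tw c n)) = (Icc 1 X).filter fun n => Squarefree n ∧ P n ∧
        (∀ a ∈ insert c T, Qc (tw a n)) ∧ ∀ a ∈ R, ¬ Qc (tw a n) := by
      refine filter_congr fun n _ => ?_
      simp only [mem_insert, forall_eq_or_imp]
      tauto
    have e2 : ((Icc 1 X).filter fun n => (Squarefree n ∧ P n ∧ (∀ a ∈ T, Qc (tw a n)) ∧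
        ∀ a ∈ R, ¬ Qc (tw a n)) ∧ ¬ Qc (tw c n)) = (Icc 1 X).filter fun n => Squarefree n ∧ P n ∧
        (∀ a ∈ T, Qc (tw a n)) ∧ ∀ a ∈ insert c R, ¬ Qc (tw a n) := by
      refine filter_congr fun n _ => ?_
      simp only [mem_insert, forall_eq_or_imp]
      tauto
    rw [e1, e2] at h5
    have h6 : ((((Icc 1 X).filter fun n => Squarefree n ∧ P n ∧
        (∀ a ∈ insert c T, Qc (tw a n)) ∧ ∀ a ∈ R, ¬ Qc (tw a n)).card : ℕ) : ℝ) +
        ((((Icc 1 X).filter fun n => Squarefree n ∧ P n ∧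
        (∀ a ∈ T, Qc (tw a n)) ∧ ∀ a ∈ insert c R, ¬ Qc (tw a n)).card : ℕ) : ℝ) =
        ((((Icc 1 X).filter fun n => Squarefree n ∧ P n ∧
        (∀ a ∈ T, Qc (tw a n)) ∧ ∀ a ∈ R, ¬ Qc (tw a n)).card : ℕ) : ℝ) := by
      exact_mod_cast h5
    linarith

end Pool.Agent.Run7.h238.J
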