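import Mathlib
import Pool.Agent.N916.GB.LA3

/-!
# J-LA, part 1: character sums over tuples in a family of groups
-/

set_option autoImplicit false
set_option linter.all false

open scoped Classical

namespace Pool.Agent.Run7.h238.J

open Finset
open Pool.Agent.N916.GB (ch ch_zero ch_one ch_add ch_abs z2 z2_add_self z2_eq_of_add orthZ ps sx
  sum_sx sx_mem sx_symm card_ps_fin)

section abs

variable {n : ℕ} {Z : Fin n → Type} [∀ i, AddCommGroup (Z i)] [∀ i, Fintype (Z i)]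

/-- the quadratic function of a tuple -/
noncomputable def QJ (β : ∀ i j, Z i → Z j → ZMod 2) (τ : ps (Fin n) → ZMod 2) (z : ∀ i, Z i) :
    ZMod 2 :=
  ∑ e : ps (Fin n), τ e * β e.1.1 e.1.2 (z e.1.1) (z e.1.2)

variable {β : ∀ i j, Z i → Z j → ZMod 2}

theorem beta_zero (hadd : ∀ i j a b c, β i j a (b + c) = β i j a b + β i j a c) (i j : Fin n)
    (a : Z i) : β i j a 0 = 0 := by
  have := hadd i j a 0 0
  rw [add_zero] at this
  exact left_eq_add.1 this

theorem beta_add' (hadd : ∀ i j a b c, β i j a (b + c) = β i j a b + β i j a c)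
    (hs : ∀ i j a b, β i j a b = β j i b a) (i j : Fin n) (a b : Z i) (c : Z j) :
    β i j (a + b) c = β i j a c + β i j b c := by
  rw [hs, hadd, hs j i c a, hs j i c b]

theorem QJ_shift (hadd : ∀ i j a b c, β i j a (b + c) = β i j a b + β i j a c)
    (hs : ∀ i j a b, β i j a b = β j i b a) (τ : ps (Fin n) → ZMod 2) (i0 : Fin n)
    (z : ∀ i, Z i) (b : Z i0) :
    QJ β τ (z + Pi.single i0 b) = QJ β τ z + ∑ j, sx τ i0 j * β i0 j b (z j) := by
  have h1 : ∑ j, sx τ i0 j * β i0 j b (z j) =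
      ∑ i, ∑ j, sx τ i j * (if i = i0 then β i0 j b (z j) else 0) := by
    symm
    refine (sum_eq_single i0 (fun i _ hi => ?_) (fun h => absurd (mem_univ i0) h)).trans ?_
    · refine sum_eq_zero fun j _ => ?_
      rw [if_neg hi, mul_zero]
    · refine sum_congr rfl fun j _ => ?_
      rw [if_pos rfl]
  rw [h1, sum_sx]
  unfold QJ
  rw [← sum_add_distrib]
  refine sum_congr rfl fun e _ => ?_
  obtain ⟨⟨i1, i2⟩, he⟩ := e
  have he' : i1 < i2 := by
    unfold ps at he
    rw [mem_filter] at he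
    exact he.2
  simp only
  rw [← mul_add]
  congr 1
  simp only [Pi.add_apply]
  by_cases h1 : i1 = i0
  · subst h1
    have h2 : i2 ≠ i1 := he'.ne'
    rw [if_pos rfl, if_neg h2, Pi.single_eq_same, Pi.single_eq_of_ne h2, add_zero, add_zero,
      beta_add' hadd hs]
  · by_cases h2 : i2 = i0
    · subst h2
      rw [if_neg h1, if_pos rfl, Pi.single_eq_same, Pi.single_eq_of_ne h1, add_zero, zero_add, hadd,
        hs i1 i2 (z i1) b]
    · rw [if_neg h1, if_neg h2, Pi.single_eq_of_ne h1, Pi.single_eq_of_ne h2, add_zero, add_zero,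
        add_zero, add_zero]

theorem shift_card (P : (∀ i, Z i) → Prop) [DecidablePred P] (j0 : Fin n) (R : ℝ)
    (hR : ∀ z, ((univ.filter fun b : Z j0 => P (z + Pi.single j0 b)).card : ℝ) ≤ R) :
    ((univ.filter P).card : ℝ) * Fintype.card (Z j0) ≤ Fintype.card (∀ i, Z i) * R := by
  have h1 : ∀ b : Z j0, ((univ.filter P).card : ℝ) =
      ∑ z : ∀ i, Z i, if P (z + Pi.single j0 b) then (1 : ℝ) else 0 := by
    intro b
    rw [card_filter, Nat.cast_sum, ← Equiv.sum_comp (Equiv.addRight (Pi.single j0 b : ∀ i, Z i))]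
    refine sum_congr rfl fun z _ => ?_
    rw [Equiv.coe_addRight, Nat.cast_ite, Nat.cast_one, Nat.cast_zero]
  have h2 : ((univ.filter P).card : ℝ) * Fintype.card (Z j0) =
      ∑ b : Z j0, ∑ z : ∀ i, Z i, if P (z + Pi.single j0 b) then (1 : ℝ) else 0 := by
    rw [sum_congr rfl fun b (_ : b ∈ (univ : Finset (Z j0))) => (h1 b).symm, sum_const, card_univ,
      nsmul_eq_mul, mul_comm]
  rw [h2, sum_comm]
  have h3 : ∀ z ∈ (univ : Finset (∀ i, Z i)),
      (∑ b : Z j0, if P (z + Pi.single j0 b) then (1 : ℝ) else 0) ≤ R := by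
    intro z _
    rw [← sum_filter, sum_const, nsmul_eq_mul, mul_one]
    exact hR z
  refine (sum_le_sum h3).trans ?_
  rw [sum_const, card_univ, nsmul_eq_mul]

/-- the character sum is bounded by the number of zeros of the linear function -/
theorem QJ_le (hadd : ∀ i j a b c, β i j a (b + c) = β i j a b + β i j a c)
    (hs : ∀ i j a b, β i j a b = β j i b a) (τ : ps (Fin n) → ZMod 2) (i0 : Fin n) :
    |∑ z : ∀ i, Z i, ch (QJ β τ z)| ≤ ((univ.filter fun z : ∀ i, Z i =>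
      ∀ b, ∑ j, sx τ i0 j * β i0 j b (z j) = 0).card : ℝ) := by
  have hcard : (0 : ℝ) < Fintype.card (Z i0) := by
    have : 0 < Fintype.card (Z i0) := Fintype.card_pos
    exact_mod_cast this
  have h1 : (∑ z : ∀ i, Z i, ch (QJ β τ z)) * Fintype.card (Z i0) =
      ∑ z : ∀ i, Z i, ch (QJ β τ z) *
        (if (∀ b, ∑ j, sx τ i0 j * β i0 j b (z j) = 0) then (Fintype.card (Z i0) : ℝ) else 0) := by
    have h2 : ∀ b : Z i0, ∑ z : ∀ i, Z i, ch (QJ β τ z) =
        ∑ z : ∀ i, Z i, ch (QJ β τ z) * ch (∑ j, sx τ i0 j * β i0 j b (z j)) := by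
      intro b
      rw [← Equiv.sum_comp (Equiv.addRight (Pi.single i0 b : ∀ i, Z i))]
      refine sum_congr rfl fun z _ => ?_
      rw [Equiv.coe_addRight, QJ_shift hadd hs, ch_add]
    have h3 : (∑ z : ∀ i, Z i, ch (QJ β τ z)) * Fintype.card (Z i0) =
        ∑ b : Z i0, ∑ z : ∀ i, Z i, ch (QJ β τ z) * ch (∑ j, sx τ i0 j * β i0 j b (z j)) := by
      rw [sum_congr rfl fun b (_ : b ∈ (univ : Finset (Z i0))) => (h2 b).symm, sum_const, card_univ,
        nsmul_eq_mul, mul_comm]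
    rw [h3, sum_comm]
    refine sum_congr rfl fun z _ => ?_
    rw [← mul_sum, orthZ (fun b => ∑ j, sx τ i0 j * β i0 j b (z j)) fun a b => by
      rw [← sum_add_distrib]
      refine sum_congr rfl fun j _ => ?_
      rw [beta_add' hadd hs, mul_add]]
  refine le_of_mul_le_mul_right ?_ hcard
  rw [← abs_of_pos hcard, ← abs_mul, abs_of_pos hcard, h1]
  refine (abs_sum_le_sum_abs _ _).trans ?_
  rw [card_filter, Nat.cast_sum, sum_mul]
  refine sum_le_sum fun z _ => ?_
  rw [abs_mul, ch_abs, one_mul]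
  split_ifs
  · rw [abs_of_pos hcard, Nat.cast_one, one_mul]
  · rw [abs_zero, Nat.cast_zero, zero_mul]

theorem lin_card (hadd : ∀ i j a b c, β i j a (b + c) = β i j a b + β i j a c)
    (τ : ps (Fin n) → ZMod 2) (i0 j0 : Fin n) (h : sx τ i0 j0 = 1) (R : ℝ)
    (hR : ((univ.filter fun a : Z j0 => ∀ b, β i0 j0 b a = 0).card : ℝ) ≤ R) :
    ((univ.filter fun z : ∀ i, Z i => ∀ b, ∑ j, sx τ i0 j * β i0 j b (z j) = 0).card : ℝ) *
      Fintype.card (Z j0) ≤ Fintype.card (∀ i, Z i) * R := by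
  refine shift_card (fun z : ∀ i, Z i => ∀ b, ∑ j, sx τ i0 j * β i0 j b (z j) = 0) j0 R
    fun z => ?_
  have e1 : ∀ (c : Z j0) (b : Z i0), ∑ j, sx τ i0 j * β i0 j b ((z + Pi.single j0 c) j) =
      ∑ j, sx τ i0 j * β i0 j b (z j) + β i0 j0 b c := by
    intro c b
    have h2 : ∀ j, sx τ i0 j * β i0 j b ((z + Pi.single j0 c) j) =
        sx τ i0 j * β i0 j b (z j) + sx τ i0 j * β i0 j b (Pi.single (M := Z) j0 c j) := by
      intro j
      rw [Pi.add_apply, hadd, mul_add]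
    rw [sum_congr rfl fun j _ => h2 j, sum_add_distrib]
    congr 1
    rw [sum_eq_single j0]
    · rw [h, one_mul, Pi.single_eq_same]
    · intro j _ hj
      rw [Pi.single_eq_of_ne hj, beta_zero hadd, mul_zero]
    · intro h
      exact absurd (mem_univ _) h
  rcases (univ.filter fun c : Z j0 => ∀ b, ∑ j, sx τ i0 j * β i0 j b ((z + Pi.single j0 c) j) =
    0).eq_empty_or_nonempty with h0 | ⟨c1, hc1⟩
  · rw [h0, card_empty, Nat.cast_zero]
    exact (Nat.cast_nonneg _).trans hR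
  · refine le_trans (Nat.cast_le.2 ?_) hR
    refine card_le_card_of_injOn (fun c => c + c1) (fun c hc => ?_) fun a _ b _ hab =>
      add_right_cancel hab
    have hc' := (mem_filter.1 (mem_coe.1 hc)).2
    have hc1' := (mem_filter.1 hc1).2
    refine mem_coe.2 (mem_filter.2 ⟨mem_univ _, fun b => ?_⟩)
    have h3 := hc' b
    have h4 := hc1' b
    rw [e1] at h3 h4
    rw [hadd]
    have h5 : β i0 j0 b c + β i0 j0 b c1 = (∑ j, sx τ i0 j * β i0 j b (z j) + β i0 j0 b c) +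
        (∑ j, sx τ i0 j * β i0 j b (z j) + β i0 j0 b c1) := by
      have := z2_add_self (∑ j, sx τ i0 j * β i0 j b (z j))
      linear_combination -this
    rw [h5, h3, h4, add_zero]

variable {J : Type} [Fintype J]

/-- the tuples with a relation -/
theorem dep_card (Y : ∀ i, Z i → J → ZMod 2) (hY : ∀ i a b l, Y i (a + b) l = Y i a l + Y i b l)
    (s q : ℝ) (hs0 : 0 ≤ s) (hq0 : 0 ≤ q)
    (hs : ∀ i, ((univ.filter fun a : Z i => ∀ l, Y i a l = 0).card : ℝ) ≤ s)
    (hq : ∀ i, (Fintype.card (Z i) : ℝ) = q) :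
    ((univ.filter fun z : ∀ i, Z i => ∃ c : Fin n → ZMod 2, (∃ i, c i ≠ 0) ∧
      ∀ l, ∑ i, c i * Y i (z i) l = 0).card : ℝ) * q ≤
      2 ^ n * (Fintype.card (∀ i, Z i) * s) := by
  have hY0 : ∀ i l, Y i 0 l = 0 := by
    intro i l
    have := hY i 0 0 l
    rw [add_zero] at this
    exact left_eq_add.1 this
  have h1 : (univ.filter fun z : ∀ i, Z i => ∃ c : Fin n → ZMod 2, (∃ i, c i ≠ 0) ∧
      ∀ l, ∑ i, c i * Y i (z i) l = 0) ⊆ (univ.filter fun c : Fin n → ZMod 2 =>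
        ∃ i, c i ≠ 0).biUnion fun c => univ.filter fun z : ∀ i, Z i =>
          ∀ l, ∑ i, c i * Y i (z i) l = 0 := by
    intro z hz
    rw [mem_filter] at hz
    obtain ⟨-, c, hc, hz⟩ := hz
    rw [mem_biUnion]
    exact ⟨c, mem_filter.2 ⟨mem_univ _, hc⟩, mem_filter.2 ⟨mem_univ _, hz⟩⟩
  have h2 : ((univ.filter fun z : ∀ i, Z i => ∃ c : Fin n → ZMod 2, (∃ i, c i ≠ 0) ∧
      ∀ l, ∑ i, c i * Y i (z i) l = 0).card : ℝ) ≤
      ∑ c ∈ univ.filter (fun c : Fin n → ZMod 2 => ∃ i, c i ≠ 0),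
        ((univ.filter fun z : ∀ i, Z i => ∀ l, ∑ i, c i * Y i (z i) l = 0).card : ℝ) := by
    refine le_trans (Nat.cast_le.2 ((card_le_card h1).trans card_biUnion_le)) ?_
    rw [Nat.cast_sum]
  refine (mul_le_mul_of_nonneg_right h2 hq0).trans ?_
  rw [sum_mul]
  refine (sum_le_sum (g := fun _ => (Fintype.card (∀ i, Z i) : ℝ) * s) fun c hc => ?_).trans ?_
  · rw [mem_filter] at hc
    obtain ⟨i0, hi0⟩ := hc.2
    have hi1 : c i0 = 1 := (z2 _).resolve_left hi0
    rw [← hq i0]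
    refine shift_card (fun z : ∀ i, Z i => ∀ l, ∑ i, c i * Y i (z i) l = 0) i0 s fun z => ?_
    have e1 : ∀ (b : Z i0) l, ∑ i, c i * Y i ((z + Pi.single i0 b) i) l =
        ∑ i, c i * Y i (z i) l + Y i0 b l := by
      intro b l
      have h2 : ∀ i, c i * Y i ((z + Pi.single i0 b) i) l =
          c i * Y i (z i) l + c i * Y i (Pi.single (M := Z) i0 b i) l := by
        intro i
        rw [Pi.add_apply, hY, mul_add]
      rw [sum_congr rfl fun j _ => h2 j, sum_add_distrib]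
      congr 1
      rw [sum_eq_single i0]
      · rw [hi1, one_mul, Pi.single_eq_same]
      · intro j _ hj
        rw [Pi.single_eq_of_ne hj, hY0, mul_zero]
      · intro h
        exact absurd (mem_univ _) h
    rcases (univ.filter fun b : Z i0 => ∀ l, ∑ i, c i * Y i ((z + Pi.single i0 b) i) l =
      0).eq_empty_or_nonempty with h0 | ⟨c1, hc1⟩
    · rw [h0, card_empty, Nat.cast_zero]
      exact hs0
    · refine le_trans (Nat.cast_le.2 ?_) (hs i0)
      refine card_le_card_of_injOn (fun c => c + c1) (fun c hc => ?_) fun a _ b _ hab =>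
        add_right_cancel hab
      have hc' := (mem_filter.1 (mem_coe.1 hc)).2
      have hc1' := (mem_filter.1 hc1).2
      refine mem_coe.2 (mem_filter.2 ⟨mem_univ _, fun l => ?_⟩)
      have h3 := hc' l
      have h4 := hc1' l
      rw [e1] at h3 h4
      show Y i0 (_ + c1) l = 0
      rw [hY]
      have h5 := z2_eq_of_add h3
      have h6 := z2_eq_of_add h4
      rw [← h5, ← h6, z2_add_self]
  · rw [sum_const, nsmul_eq_mul]
    refine mul_le_mul_of_nonneg_right ?_ (by positivity)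
    have : (univ.filter (fun c : Fin n → ZMod 2 => ∃ i, c i ≠ 0)).card ≤ 2 ^ n := by
      refine (card_filter_le _ _).trans ?_
      rw [card_univ, Fintype.card_fun, Fintype.card_fin, ZMod.card]
    exact_mod_cast this

/-- the moments -/
theorem momJ (hadd : ∀ i j a b c, β i j a (b + c) = β i j a b + β i j a c)
    (hs : ∀ i j a b, β i j a b = β j i b a)
    (Y : ∀ i, Z i → J → ZMod 2) (hY : ∀ i a b l, Y i (a + b) l = Y i a l + Y i b l)
    (s q R : ℝ) (hs0 : 0 ≤ s) (hq0 : 0 < q) (hR0 : 0 ≤ R)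
    (hys : ∀ i, ((univ.filter fun a : Z i => ∀ l, Y i a l = 0).card : ℝ) ≤ s)
    (hq : ∀ i, (Fintype.card (Z i) : ℝ) = q)
    (hR : ∀ i j, i ≠ j → ((univ.filter fun a : Z j => ∀ b, β i j b a = 0).card : ℝ) ≤ R)
    (G : Finset (∀ i, Z i))
    (hG : ∀ z, z ∉ G → ∃ c : Fin n → ZMod 2, (∃ i, c i ≠ 0) ∧ ∀ l, ∑ i, c i * Y i (z i) l = 0) :
    |∑ τ : ps (Fin n) → ZMod 2, ∑ z ∈ G, ch (QJ β τ z) - q ^ n| * q ≤
      2 ^ n ^ 2 * (q ^ n * (R + 2 ^ n * s)) := by
  have hcard : (Fintype.card (∀ i, Z i) : ℝ) = q ^ n := by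
    rw [Fintype.card_pi, Nat.cast_prod, prod_congr rfl fun i _ => hq i, prod_const, card_univ,
      Fintype.card_fin]
  have hGc : ((Gᶜ).card : ℝ) * q ≤ 2 ^ n * (q ^ n * s) := by
    have h := dep_card Y hY s q hs0 hq0.le hys hq
    rw [hcard] at h
    refine le_trans (mul_le_mul_of_nonneg_right ?_ hq0.le) h
    refine Nat.cast_le.2 (card_le_card fun z hz => ?_)
    rw [mem_compl] at hz
    rw [mem_filter]
    exact ⟨mem_univ _, hG z hz⟩
  have hall : ∀ τ : ps (Fin n) → ZMod 2, ∑ z ∈ G, ch (QJ β τ z) =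
      ∑ z, ch (QJ β τ z) - ∑ z ∈ Gᶜ, ch (QJ β τ z) := by
    intro τ
    rw [← sum_add_sum_compl G]
    ring
  have hc : ∀ τ : ps (Fin n) → ZMod 2, |∑ z ∈ Gᶜ, ch (QJ β τ z)| ≤ (Gᶜ).card := by
    intro τ
    refine (abs_sum_le_sum_abs _ _).trans ?_
    rw [sum_congr rfl fun z _ => ch_abs _, sum_const, nsmul_eq_mul, mul_one]
  have h0 : ∑ z : ∀ i, Z i, ch (QJ β 0 z) = q ^ n := by
    have : ∀ z : ∀ i, Z i, ch (QJ β 0 z) = 1 := by
      intro z
      unfold QJ
      rw [sum_eq_zero fun e _ => by rw [Pi.zero_apply, zero_mul], ch_zero]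
    rw [sum_congr rfl fun z _ => this z, sum_const, card_univ, nsmul_eq_mul, mul_one, hcard]
  have h1 : ∀ τ : ps (Fin n) → ZMod 2,
      |∑ z ∈ G, ch (QJ β τ z) - (if τ = 0 then q ^ n else 0)| * q ≤
        q ^ n * (R + 2 ^ n * s) := by
    intro τ
    have hr : (0 : ℝ) ≤ q ^ n * R := by positivity
    by_cases hτ : τ = 0
    · rw [if_pos hτ, hτ, hall, h0, sub_sub_cancel_left, abs_neg]
      have := mul_le_mul_of_nonneg_right (hc 0) hq0.le
      calc |∑ z ∈ Gᶜ, ch (QJ β 0 z)| * q ≤ (Gᶜ).card * q := this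
        _ ≤ 2 ^ n * (q ^ n * s) := hGc
        _ ≤ q ^ n * (R + 2 ^ n * s) := by linarith
    · rw [if_neg hτ, sub_zero, hall]
      obtain ⟨e, he⟩ : ∃ e, τ e ≠ 0 := by
        by_contra h
        push Not at h
        exact hτ (funext h)
      have he1 : sx τ e.1.1 e.1.2 = 1 := by
        rw [sx_mem]
        exact (z2 _).resolve_left he
      have hne : e.1.1 ≠ e.1.2 := by
        have := e.2
        unfold ps at this
        rw [mem_filter] at this
        exact this.2.ne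
      have h2 : |∑ z : ∀ i, Z i, ch (QJ β τ z)| * q ≤ q ^ n * R := by
        have h3 := lin_card hadd τ e.1.1 e.1.2 he1 R (hR _ _ hne)
        rw [hq, hcard] at h3
        exact (mul_le_mul_of_nonneg_right (QJ_le hadd hs τ e.1.1) hq0.le).trans h3
      have h3 := mul_le_mul_of_nonneg_right (hc τ) hq0.le
      calc |∑ z, ch (QJ β τ z) - ∑ z ∈ Gᶜ, ch (QJ β τ z)| * q ≤
          (|∑ z, ch (QJ β τ z)| + |∑ z ∈ Gᶜ, ch (QJ β τ z)|) * q :=
            mul_le_mul_of_nonneg_right (abs_sub _ _) hq0.le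
        _ ≤ q ^ n * (R + 2 ^ n * s) := by linarith
  have h2 : ∑ τ : ps (Fin n) → ZMod 2, ∑ z ∈ G, ch (QJ β τ z) - q ^ n =
      ∑ τ : ps (Fin n) → ZMod 2,
        (∑ z ∈ G, ch (QJ β τ z) - (if τ = 0 then q ^ n else 0)) := by
    rw [sum_sub_distrib, sum_ite_eq' univ (0 : ps (Fin n) → ZMod 2), if_pos (mem_univ _)]
  rw [h2]
  refine (mul_le_mul_of_nonneg_right (abs_sum_le_sum_abs _ _) hq0.le).trans ?_
  rw [sum_mul]
  refine (sum_le_sum fun τ _ => h1 τ).trans ?_
  rw [sum_const, nsmul_eq_mul]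
  refine mul_le_mul_of_nonneg_right ?_ (by positivity)
  rw [card_univ, Fintype.card_fun, ZMod.card, Fintype.card_coe]
  push_cast
  exact pow_le_pow_right₀ (by norm_num) (card_ps_fin n)

end abs

end Pool.Agent.Run7.h238.J
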