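import Mathlib
import Pool.Agent.Run7.h843.G7

/-!
# Project JL: the joint law for finitely many multipliers

For a family `V k` of sets of odd primes with an even number of primes `3` modulo `4` (the prime
factors of the multipliers `m_k ≡ 1` modulo `4`) the systems of the sets `S ∆ V k` (the prime factors
of the squarefree part of `m_k n`) are asymptotically independent. Statements of the parts, after
`N916/GB/Stm.lean`, `R413/SM/S1`-`S4` and `Run7/h843/G1`-`G8`.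
-/

set_option autoImplicit false
set_option linter.unusedVariables false

open scoped Classical

namespace Pool.Agent.Run7.h238.J

open Finset
open Pool.Agent.Y703.CX (sm la jj XX eL zz kk S_SIE)
open Pool.Agent.Y703.CQ (nr)
open Pool.Agent.N973.ND (uu)
open Pool.Agent.N916.GB (Po SA ps sx pt HB S_EQ S_BIL S_ME8 S_HAL N8 Nd)
open Pool.Agent.Run7.h741.NM (Cl SS)
open Pool.Agent.Run7.h843.G (Gvk Gdk OkM)
open Run7.h843.L (gk)

/-! ### Linear algebra -/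

/-- the difference of the labels of two systems -/
noncomputable def dd {M : ℕ} {J : Type} {U : Fin M → Type} [∀ k, Fintype (U k)]
    (N : ∀ k, U k ⊕ J → U k ⊕ J → ZMod 2) (k l : Fin M) (j : J) : ZMod 2 :=
  ∑ v, N k (Sum.inr j) (Sum.inl v) + ∑ v, N l (Sum.inr j) (Sum.inl v)

/-- J-LA: the systems are asymptotically independent. -/
def S_JLA {M : ℕ} (r : Fin M → ℕ) : Prop := ∀ ε : ℝ, 0 < ε → ∃ V₀ : ℕ, ∀ (J : Type) [Fintype J]
  [LinearOrder J] (U : Fin M → Type) [∀ k, Fintype (U k)] (uJ : J → ZMod 2)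
  (u : ∀ k, U k ⊕ J → ZMod 2) (NJ : J → J → ZMod 2) (N : ∀ k, U k ⊕ J → U k ⊕ J → ZMod 2),
  (∀ k j, u k (Sum.inr j) = uJ j) → (∀ k i j, N k (Sum.inr i) (Sum.inr j) = NJ i j) →
  (∀ k, ∑ i, u k i = 1) →
  (∀ k i j, i ≠ j → N k i j + N k j i = u k i * u k j) →
  (∀ k (b : U k → ZMod 2) (s : ZMod 2), ((∃ v, b v ≠ 0) ∨ s ≠ 0) →
    ∃ j, ∑ v, b v * N k (Sum.inl v) (Sum.inr j) + s * uJ j ≠ 0) →
  (∀ k, 2 * Fintype.card (U k) + V₀ ≤ (univ.filter fun j : J => uJ j = 1).card) →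
  (∀ k l, k ≠ l → 2 * (Fintype.card (U k) + Fintype.card (U l)) + V₀ ≤
      (univ.filter fun j : J => dd N k l j ≠ 0).card ∧
    2 * (Fintype.card (U k) + Fintype.card (U l)) + V₀ ≤
      (univ.filter fun j : J => dd N k l j + uJ j ≠ 0).card) →
  |((univ.filter fun σ : ps J → ZMod 2 => ∀ k, Gvk (r k) (pt (N k) (sx σ))).card : ℝ) /
    2 ^ (ps J).card - ∏ k, gk (r k)| ≤ ε

/-! ### The box -/

/-- the joint condition -/
def GdJ {M : ℕ} (r : Fin M → ℕ) (V : Fin M → Finset ℕ) (S : Finset ℕ) : Prop :=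
  ∀ k, Gdk (r k) false 0 0 (symmDiff S (V k))

/-- the label: the symbol of `m_k m_l` at `p` -/
noncomputable def lab {M : ℕ} (V : Fin M → Finset ℕ) (k l : Fin M) (p : ℕ) : ZMod 2 :=
  ∑ v ∈ V k, nr v p + ∑ v ∈ V l, nr v p

/-- the labels are not degenerate and there are many large primes of each kind -/
def NdJ {M : ℕ} (R : ℕ) (W : Finset ℕ) (V : Fin M → Finset ℕ) (S₀ S₁ : Finset ℕ) : Prop :=
  Nd (S₀ ∪ W) S₁ ∧ 2 * (S₀ ∪ W).card + R ≤ (S₁.filter fun p => p % 4 = 3).card ∧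
    ∀ k l, k ≠ l → 4 * (S₀ ∪ W).card + R ≤ (S₁.filter fun p => lab V k l p ≠ 0).card ∧
      4 * (S₀ ∪ W).card + R ≤ (S₁.filter fun p => lab V k l p + uu p ≠ 0).card

/-- the multipliers: squarefree, `1` modulo `4` -/
def Mu (V : Finset ℕ) : Prop := (∀ p ∈ V, Po p) ∧ Even (V.filter fun p => p % 4 = 3).card

/-- the count in a box -/
def BX {M : ℕ} (r : Fin M → ℕ) (ε : ℝ) (R : ℕ) : Prop := ∀ (V : Fin M → Finset ℕ) (ι : Type)
  [Fintype ι] [LinearOrder ι] (τ : ι → ℕ) (C : ι → Finset ℕ) (X : ι → ℕ) (κ : ℝ)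
  (S₀ W : Finset ℕ), (∀ k, Mu (V k)) → (∀ k, V k ⊆ W) → 0 ≤ κ → (∀ i, (C i).card ≤ X i) →
  HB C X κ → (∀ v ∈ S₀ ∪ W, Po v) → (∀ i, ∀ p ∈ C i, Po p ∧ p ∉ S₀ ∪ W ∧ p % 4 = τ i) →
  (∀ i l, i ≠ l → Disjoint (C i) (C l)) →
  ((S₀.filter fun p => p % 4 = 3).card + (univ.filter fun i => τ i = 3).card) % 2 = 1 →
  |(((Fintype.piFinset C).filter fun p => NdJ R W V S₀ (univ.image p) ∧
        GdJ r V (S₀ ∪ univ.image p)).card : ℝ) -
      (∏ k, gk (r k)) *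
        (((Fintype.piFinset C).filter fun p => NdJ R W V S₀ (univ.image p)).card : ℝ)| ≤
    ε * (((Fintype.piFinset C).filter fun p => NdJ R W V S₀ (univ.image p)).card : ℝ) +
    2 ^ ((2 * (S₀ ∪ W).card + 1) * Fintype.card ι + (ps ι).card) * (κ * ∏ j, (X j : ℝ))

/-- J-BOX -/
def S_JBOX {M : ℕ} (r : Fin M → ℕ) : Prop := S_EQ → S_JLA r → ∀ ε : ℝ, 0 < ε → ∃ R : ℕ, BX r ε R

/-! ### The sum over the boxes -/

/-- the regular sets -/
noncomputable def RR (m : ℕ) (K : Finset ℕ) (X z H k : ℕ) : Finset (Finset ℕ) :=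
  (SS m K X).filter fun S => Set.InjOn (jj H) (la z S : Set ℕ) ∧ S.card ≤ k ∧
    (∏ p ∈ sm z S, p) * ∏ p ∈ la z S, XX H (jj H p) ≤ X

/-- J-KEY -/
def S_JKEY {M : ℕ} (r : Fin M → ℕ) : Prop := S_BIL → S_EQ → S_JLA r → S_JBOX r → ∀ ε : ℝ, 0 < ε →
  ∃ (R : ℕ) (C : ℝ), 1 ≤ C ∧
  ∀ m : ℕ, 8 ∣ m → 0 < m → ∀ K : Finset ℕ, OkM m false 0 0 K →
  ∀ (V : Fin M → Finset ℕ) (W : Finset ℕ), (∀ k, Mu (V k)) → (∀ k, V k ⊆ W) → (∀ v ∈ W, Po v) →
  ∀ (X z H k N : ℕ) (κ : ℝ), 1 ≤ X → 1 ≤ H → 1 ≤ z → 0 ≤ κ → C ≤ κ ^ 12 * z →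
  (H : ℝ) * Real.log X < N → (∀ v ∈ W, v ≤ z) → W.card ≤ k →
  |(((RR m K X z H k).filter fun S => NdJ R W V (sm z S) (la z S) ∧ GdJ r V S).card : ℝ) -
      (∏ k, gk (r k)) * (((RR m K X z H k).filter fun S => NdJ R W V (sm z S) (la z S)).card : ℝ)| ≤
    ε * ((RR m K X z H k).card : ℝ) +
    (m * N + m : ℝ) ^ k * (3 ^ (20 * k ^ 2 + 20) * κ) * (X * (1 + Real.log X))

/-! ### The exceptional sets -/

/-- J-BAD: few sets have degenerate labels with respect to the small primes and to `W`. -/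
def S_JBAD : Prop := S_SIE → S_HAL → S_ME8 → ∀ W : Finset ℕ, (∀ p ∈ W, Po p) →
  ∀ ε : ℝ, 0 < ε → ∃ X₀ : ℕ, ∀ X : ℕ, X₀ ≤ X →
  (((SA X).filter fun S => S.card ≤ kk X ∧
    ¬ N8 (sm (zz X) S ∪ W) (la (zz X) S)).card : ℝ) ≤ ε * X

/-- positive logarithmic density of the odd primes with `d p ≠ 0` -/
def Pos (d : ℕ → ZMod 2) : Prop := ∃ β C : ℝ, 0 < β ∧ ∀ y : ℕ, 3 ≤ y →
  β * Real.log (Real.log y) - C ≤ ∑ p ∈ (range (y + 1)).filter (fun p => Po p ∧ d p ≠ 0), (1 : ℝ) / p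

/-- J-FEW: few sets have few large primes with `d p ≠ 0`. -/
def S_JFEW : Prop := S_SIE → S_ME8 → ∀ d : ℕ → ZMod 2, Pos d → ∀ (A R : ℕ) (ε : ℝ), 0 < ε →
  ∃ X₀ : ℕ, ∀ X : ℕ, X₀ ≤ X →
  (((SA X).filter fun S => ((la (zz X) S).filter fun p => d p ≠ 0).card <
    A * (sm (zz X) S).card + R).card : ℝ) ≤ ε * X

/-- J-POS: the labels have positive logarithmic density (Mertens' theorem in the classes modulo
`4 ∏ v`). -/
def S_JPOS : Prop := ∀ U : Finset ℕ, U.Nonempty → (∀ p ∈ U, Po p) →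
  Pos (fun p => ∑ v ∈ U, nr v p) ∧ Pos (fun p => ∑ v ∈ U, nr v p + uu p) ∧ Pos uu

/-! ### The law -/

/-- J-ASY: the joint law for sets of primes -/
def S_JDQ {M : ℕ} (r : Fin M → ℕ) : Prop := ∀ m : ℕ, 8 ∣ m → 0 < m → ∀ K : Finset ℕ,
  OkM m false 0 0 K → ∀ V : Fin M → Finset ℕ, Function.Injective V → (∀ k, Mu (V k)) →
  ∀ ε : ℝ, 0 < ε → ∃ X₀ : ℕ, ∀ X : ℕ, X₀ ≤ X →
  |(((SS m K X).filter (GdJ r V)).card : ℝ) - (∏ k, gk (r k)) * ((SS m K X).card : ℝ)| ≤ ε * X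

/-- the squarefree part of `a n` (for `a`, `n` squarefree) -/
def tw (a n : ℕ) : ℕ := a * n / (Nat.gcd a n) ^ 2

end Pool.Agent.Run7.h238.J
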