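import Mathlib
import Pool.Agent.Run7.h238.J.Stm
import Pool.Agent.Run7.h238.J.LA1

/-!
# J-LA, part 2: the joint moments over the jointly independent tuples
-/

set_option autoImplicit false
set_option linter.all false

open scoped Classical

namespace Pool.Agent.Run7.h238.J

open Finset
open Pool.Agent.N916.GB (ch ch_zero ch_one ch_add ch_abs z2 z2_add_self z2_eq_of_add orthZ ps sx
  sum_sx sx_mem sx_symm card_ps_fin Ev Ev_add Ev_zero om rel Zs mem_Zs Ann card_Ann card_Zs SU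
  card_SU rad BB card_rad form_ee sum_ee Pc count_val yy ee pt)

section two

variable {J U1 U2 : Type} [Fintype J] [LinearOrder J] [Fintype U1] [Fintype U2]

theorem Ev_split {N : U1 ⊕ J → U1 ⊕ J → ZMod 2} {NJ : J → J → ZMod 2}
    (hN : ∀ i j, N (Sum.inr i) (Sum.inr j) = NJ i j) (x : U1 ⊕ J → ZMod 2) (j : J) :
    Ev N x (Sum.inr j) = ∑ v, x (Sum.inl v) * N (Sum.inr j) (Sum.inl v) +
      x (Sum.inr j) * ∑ v, N (Sum.inr j) (Sum.inl v) + Ev NJ (fun l => x (Sum.inr l)) j := by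
  unfold Ev
  rw [Fintype.sum_sum_type, mul_sum, ← sum_add_distrib]
  congr 1
  · exact sum_congr rfl fun v _ => add_mul _ _ _
  · exact sum_congr rfl fun m _ => by rw [hN]

/-- the mixed form -/
noncomputable def bb {N1 : U1 ⊕ J → U1 ⊕ J → ZMod 2} {N2 : U2 ⊕ J → U2 ⊕ J → ZMod 2} {k0 : J}
    (a : Zs N1 k0) (b : Zs N2 k0) : ZMod 2 :=
  ∑ l, ((a : U1 ⊕ J → ZMod 2) (Sum.inr l) * Ev N2 (b : U2 ⊕ J → ZMod 2) (Sum.inr l) +
    (b : U2 ⊕ J → ZMod 2) (Sum.inr l) * Ev N1 (a : U1 ⊕ J → ZMod 2) (Sum.inr l))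

variable {N1 : U1 ⊕ J → U1 ⊕ J → ZMod 2} {N2 : U2 ⊕ J → U2 ⊕ J → ZMod 2} {k0 : J}

theorem bb_symm (a : Zs N1 k0) (b : Zs N2 k0) : bb a b = bb b a :=
  sum_congr rfl fun l _ => add_comm _ _

theorem bb_add (a : Zs N1 k0) (b c : Zs N2 k0) : bb a (b + c) = bb a b + bb a c := by
  unfold bb
  rw [← sum_add_distrib]
  refine sum_congr rfl fun l _ => ?_
  rw [Submodule.coe_add, Ev_add, Pi.add_apply]
  ring

theorem bb_eq {NJ : J → J → ZMod 2} {uJ : J → ZMod 2}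
    (hN1 : ∀ i j, N1 (Sum.inr i) (Sum.inr j) = NJ i j)
    (hN2 : ∀ i j, N2 (Sum.inr i) (Sum.inr j) = NJ i j)
    (hJ : ∀ i j, i ≠ j → NJ i j + NJ j i = uJ i * uJ j) (a : Zs N1 k0) (b : Zs N2 k0) :
    bb a b = ∑ v, (a : U1 ⊕ J → ZMod 2) (Sum.inl v) *
        ∑ l, (b : U2 ⊕ J → ZMod 2) (Sum.inr l) * N1 (Sum.inr l) (Sum.inl v) +
      ∑ l, (a : U1 ⊕ J → ZMod 2) (Sum.inr l) *
        (∑ v, (b : U2 ⊕ J → ZMod 2) (Sum.inl v) * N2 (Sum.inr l) (Sum.inl v) +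
          (∑ v, N1 (Sum.inr l) (Sum.inl v) + ∑ v, N2 (Sum.inr l) (Sum.inl v) + uJ l) *
            (b : U2 ⊕ J → ZMod 2) (Sum.inr l) +
          (∑ m, uJ m * (b : U2 ⊕ J → ZMod 2) (Sum.inr m)) * uJ l) := by
  have h1 := rel (fun _ => (1 : ZMod 2)) uJ NJ (fun i j hij => by
    rw [one_mul, one_mul]
    exact hJ i j hij) (fun l => (a : U1 ⊕ J → ZMod 2) (Sum.inr l))
      (fun l => (b : U2 ⊕ J → ZMod 2) (Sum.inr l))
  simp only [one_mul] at h1
  unfold om at h1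
  have h2 : ∑ v, (a : U1 ⊕ J → ZMod 2) (Sum.inl v) *
      ∑ l, (b : U2 ⊕ J → ZMod 2) (Sum.inr l) * N1 (Sum.inr l) (Sum.inl v) =
      ∑ l, (b : U2 ⊕ J → ZMod 2) (Sum.inr l) *
        ∑ v, (a : U1 ⊕ J → ZMod 2) (Sum.inl v) * N1 (Sum.inr l) (Sum.inl v) := by
    simp only [mul_sum]
    rw [sum_comm]
    refine sum_congr rfl fun l _ => sum_congr rfl fun v _ => ?_
    ring
  have h3 : ∀ l, (a : U1 ⊕ J → ZMod 2) (Sum.inr l) * Ev N2 (b : U2 ⊕ J → ZMod 2) (Sum.inr l) +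
      (b : U2 ⊕ J → ZMod 2) (Sum.inr l) * Ev N1 (a : U1 ⊕ J → ZMod 2) (Sum.inr l) =
      ((b : U2 ⊕ J → ZMod 2) (Sum.inr l) *
        ∑ v, (a : U1 ⊕ J → ZMod 2) (Sum.inl v) * N1 (Sum.inr l) (Sum.inl v)) +
      ((a : U1 ⊕ J → ZMod 2) (Sum.inr l) *
        (∑ v, (b : U2 ⊕ J → ZMod 2) (Sum.inl v) * N2 (Sum.inr l) (Sum.inl v) +
          (∑ v, N1 (Sum.inr l) (Sum.inl v) + ∑ v, N2 (Sum.inr l) (Sum.inl v)) *
            (b : U2 ⊕ J → ZMod 2) (Sum.inr l))) +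
      ((a : U1 ⊕ J → ZMod 2) (Sum.inr l) *
        Ev NJ (fun l => (b : U2 ⊕ J → ZMod 2) (Sum.inr l)) l +
      (b : U2 ⊕ J → ZMod 2) (Sum.inr l) *
        Ev NJ (fun l => (a : U1 ⊕ J → ZMod 2) (Sum.inr l)) l) := by
    intro l
    rw [Ev_split hN1, Ev_split hN2]
    ring
  unfold bb
  rw [sum_congr rfl fun l _ => h3 l, sum_add_distrib, sum_add_distrib, h1, h2]
  have h4 : ∀ l, (a : U1 ⊕ J → ZMod 2) (Sum.inr l) *
        (∑ v, (b : U2 ⊕ J → ZMod 2) (Sum.inl v) * N2 (Sum.inr l) (Sum.inl v) +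
          (∑ v, N1 (Sum.inr l) (Sum.inl v) + ∑ v, N2 (Sum.inr l) (Sum.inl v) + uJ l) *
            (b : U2 ⊕ J → ZMod 2) (Sum.inr l) +
          (∑ m, uJ m * (b : U2 ⊕ J → ZMod 2) (Sum.inr m)) * uJ l) =
      ((a : U1 ⊕ J → ZMod 2) (Sum.inr l) *
        (∑ v, (b : U2 ⊕ J → ZMod 2) (Sum.inl v) * N2 (Sum.inr l) (Sum.inl v) +
          (∑ v, N1 (Sum.inr l) (Sum.inl v) + ∑ v, N2 (Sum.inr l) (Sum.inl v)) *
            (b : U2 ⊕ J → ZMod 2) (Sum.inr l))) +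
      (uJ l * (a : U1 ⊕ J → ZMod 2) (Sum.inr l) *
        (∑ m, uJ m * (b : U2 ⊕ J → ZMod 2) (Sum.inr m)) +
      uJ l * ((a : U1 ⊕ J → ZMod 2) (Sum.inr l) * (b : U2 ⊕ J → ZMod 2) (Sum.inr l))) := by
    intro l
    ring
  rw [sum_congr rfl fun l _ => h4 l, sum_add_distrib, sum_add_distrib, ← sum_mul]
  ring

theorem card_radJ {NJ : J → J → ZMod 2} {uJ : J → ZMod 2}
    (hN1 : ∀ i j, N1 (Sum.inr i) (Sum.inr j) = NJ i j)
    (hN2 : ∀ i j, N2 (Sum.inr i) (Sum.inr j) = NJ i j)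
    (hJ : ∀ i j, i ≠ j → NJ i j + NJ j i = uJ i * uJ j) :
    ((univ.filter fun b : Zs N2 k0 => ∀ a : Zs N1 k0, bb a b = 0).card : ℝ) ≤
      (Ann N1 k0).card * (2 * (2 ^ Fintype.card U2 * 2 ^ (Fintype.card J - (univ.filter fun l : J =>
        ∑ v, N1 (Sum.inr l) (Sum.inl v) + ∑ v, N2 (Sum.inr l) (Sum.inl v) + uJ l ≠ 0).card))) := by
  set D := univ.filter fun l : J =>
    ∑ v, N1 (Sum.inr l) (Sum.inl v) + ∑ v, N2 (Sum.inr l) (Sum.inl v) + uJ l ≠ 0 with hD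
  set ff : Zs N2 k0 → (U1 ⊕ J → ZMod 2) × (ZMod 2 × ((U2 → ZMod 2) ×
      ({l : J // l ∈ Dᶜ} → ZMod 2))) := fun b =>
    (Sum.elim (fun v => ∑ l, (b : U2 ⊕ J → ZMod 2) (Sum.inr l) * N1 (Sum.inr l) (Sum.inl v))
      (fun l => ∑ v, (b : U2 ⊕ J → ZMod 2) (Sum.inl v) * N2 (Sum.inr l) (Sum.inl v) +
          (∑ v, N1 (Sum.inr l) (Sum.inl v) + ∑ v, N2 (Sum.inr l) (Sum.inl v) + uJ l) *
            (b : U2 ⊕ J → ZMod 2) (Sum.inr l) +
          (∑ m, uJ m * (b : U2 ⊕ J → ZMod 2) (Sum.inr m)) * uJ l),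
      (∑ m, uJ m * (b : U2 ⊕ J → ZMod 2) (Sum.inr m),
        (fun v => (b : U2 ⊕ J → ZMod 2) (Sum.inl v),
        fun l => (b : U2 ⊕ J → ZMod 2) (Sum.inr l.1)))) with hff
  have h1 : (univ.filter fun b : Zs N2 k0 => ∀ a : Zs N1 k0, bb a b = 0).card ≤
      ((Ann N1 k0) ×ˢ (univ : Finset (ZMod 2 × ((U2 → ZMod 2) ×
      ({l : J // l ∈ Dᶜ} → ZMod 2))))).card := by
    refine card_le_card_of_injOn ff (fun b hb => ?_) ?_
    · rw [mem_coe, mem_product]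
      refine ⟨?_, mem_univ _⟩
      unfold Ann
      rw [mem_filter]
      refine ⟨mem_univ _, fun a => ?_⟩
      have h2 := (mem_filter.1 (mem_coe.1 hb)).2 a
      rw [bb_eq hN1 hN2 hJ] at h2
      rw [← h2, Fintype.sum_sum_type, hff]
      simp only [Sum.elim_inl, Sum.elim_inr]
      congr 1
      · exact sum_congr rfl fun v _ => mul_comm _ _
      · exact sum_congr rfl fun l _ => mul_comm _ _
    · intro a _ b _ hab
      rw [hff] at hab
      simp only [Prod.mk.injEq] at hab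
      obtain ⟨h2, h3, h4, h5⟩ := hab
      refine Subtype.ext (funext fun q => ?_)
      rcases q with v | l
      · exact congrFun h4 v
      · by_cases hl : l ∈ D
        · have h6 := congrFun h2 (Sum.inr l)
          simp only [Sum.elim_inr] at h6
          have h7 : ∑ v, N1 (Sum.inr l) (Sum.inl v) + ∑ v, N2 (Sum.inr l) (Sum.inl v) + uJ l = 1 :=
            (z2 _).resolve_left (mem_filter.1 hl).2
          have h8 : ∀ v, (a : U2 ⊕ J → ZMod 2) (Sum.inl v) = (b : U2 ⊕ J → ZMod 2) (Sum.inl v) :=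
            fun v => congrFun h4 v
          rw [h3, h7, one_mul, one_mul, sum_congr rfl fun v _ => by rw [h8 v]] at h6
          exact add_left_cancel (add_right_cancel h6)
        · have hm : l ∈ Dᶜ := mem_compl.2 hl
          exact congrFun h5 ⟨l, hm⟩
  refine (Nat.cast_le.2 h1).trans (le_of_eq ?_)
  rw [card_product, Nat.cast_mul]
  congr 1
  rw [card_univ, Fintype.card_prod, Fintype.card_prod, Fintype.card_fun, Fintype.card_fun,
    ZMod.card, Fintype.card_coe, card_compl]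
  push_cast
  rfl

theorem bb_same {u : U1 ⊕ J → ZMod 2} (h3 : ∀ i j, i ≠ j → N1 i j + N1 j i = u i * u j)
    (a b : Zs N1 k0) : bb a b = om u (a : U1 ⊕ J → ZMod 2) (b : U1 ⊕ J → ZMod 2) := by
  have h := form_ee (w := fun _ => (1 : ZMod 2)) (u := u) (N := N1) (fun _ => rfl)
    (fun i j hij => by
      rw [one_mul, one_mul]
      exact h3 i j hij) (k := 2) ![a, b] 0 1
  exact h

end two

/-- the hypotheses on the systems -/
structure Sys {M : ℕ} {J : Type} [Fintype J] [LinearOrder J] {U : Fin M → Type}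
    [∀ k, Fintype (U k)] (V₀ : ℕ) (uJ : J → ZMod 2) (u : ∀ k, U k ⊕ J → ZMod 2)
    (NJ : J → J → ZMod 2) (N : ∀ k, U k ⊕ J → U k ⊕ J → ZMod 2) : Prop where
  hu : ∀ k j, u k (Sum.inr j) = uJ j
  hN : ∀ k i j, N k (Sum.inr i) (Sum.inr j) = NJ i j
  hJ : ∀ i j, i ≠ j → NJ i j + NJ j i = uJ i * uJ j
  h1 : ∀ k, ∑ i, u k i = 1
  h3 : ∀ k i j, i ≠ j → N k i j + N k j i = u k i * u k j
  h5 : ∀ k (b : U k → ZMod 2) (s : ZMod 2), ((∃ v, b v ≠ 0) ∨ s ≠ 0) →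
    ∃ j, ∑ v, b v * N k (Sum.inl v) (Sum.inr j) + s * uJ j ≠ 0
  hV : ∀ k, 2 * Fintype.card (U k) + V₀ ≤ (univ.filter fun j : J => uJ j = 1).card
  hd : ∀ k l, k ≠ l → 2 * (Fintype.card (U k) + Fintype.card (U l)) + V₀ ≤
      (univ.filter fun j : J => dd N k l j ≠ 0).card ∧
    2 * (Fintype.card (U k) + Fintype.card (U l)) + V₀ ≤
      (univ.filter fun j : J => dd N k l j + uJ j ≠ 0).card

section sys

variable {M : ℕ} {J : Type} [Fintype J] [LinearOrder J] {U : Fin M → Type} [∀ k, Fintype (U k)]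
  {V₀ : ℕ} {uJ : J → ZMod 2} {u : ∀ k, U k ⊕ J → ZMod 2} {NJ : J → J → ZMod 2}
  {N : ∀ k, U k ⊕ J → U k ⊕ J → ZMod 2} {k0 : J}

theorem Sys.h5' (H : Sys V₀ uJ u NJ N) (k : Fin M) (b : U k → ZMod 2) (s : ZMod 2)
    (h : (∃ v, b v ≠ 0) ∨ s ≠ 0) :
    ∃ j, ∑ v, b v * N k (Sum.inl v) (Sum.inr j) + s * u k (Sum.inr j) ≠ 0 := by
  obtain ⟨j, hj⟩ := H.h5 k b s h
  refine ⟨j, ?_⟩
  rw [H.hu]
  exact hj

theorem Sys.cardZ (H : Sys V₀ uJ u NJ N) (k : Fin M) :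
    (Fintype.card (Zs (N k) k0) : ℝ) = 2 ^ Fintype.card J / 2 := by
  have h := card_Zs (u := u k) (N := N k) (H.h5' k) k0
  linarith

theorem Sys.cardA (H : Sys V₀ uJ u NJ N) (k : Fin M) :
    ((Ann (N k) k0).card : ℝ) = 2 ^ Fintype.card (U k) * 2 := by
  have h := card_Ann (N k) k0
  rw [H.cardZ k, pow_add] at h
  have h1 : (0 : ℝ) < 2 ^ Fintype.card J := by positivity
  have h2 : ((Ann (N k) k0).card : ℝ) * 2 ^ Fintype.card J =
      (2 ^ Fintype.card (U k) * 2) * 2 ^ Fintype.card J := by linarith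
  exact mul_right_cancel₀ h1.ne' h2

theorem pow_sub_le {j d a V : ℕ} (hd : d ≤ j) (h : a + V ≤ d) :
    (2 : ℝ) ^ a * 2 ^ (j - d) ≤ 2 ^ j / 2 ^ V := by
  rw [le_div_iff₀ (by positivity), ← pow_add, ← pow_add]
  exact pow_le_pow_right₀ (by norm_num) (by omega)

theorem Sys.radJ (H : Sys V₀ uJ u NJ N) (k l : Fin M) :
    ((univ.filter fun b : Zs (N l) k0 => ∀ a : Zs (N k) k0, bb a b = 0).card : ℝ) ≤
      4 * (2 ^ Fintype.card J / 2 ^ V₀) := by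
  by_cases hkl : k = l
  · subst hkl
    have h1 : (univ.filter fun b : Zs (N k) k0 => ∀ a : Zs (N k) k0, bb a b = 0) =
        rad (BB (u k) (N k) k0) := by
      unfold rad
      refine filter_congr fun b _ => ?_
      refine forall_congr' fun a => ?_
      rw [bb_same (H.h3 k)]
      exact Iff.rfl
    have h2 := card_rad (u k) (N k) k0
    have e : (univ.filter fun j : J => u k (Sum.inr j) = 1) = univ.filter fun j : J => uJ j = 1 :=
      filter_congr fun j _ => by rw [H.hu]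
    rw [← h1, H.cardA k, e] at h2
    refine h2.trans ?_
    have h3 := pow_sub_le (j := Fintype.card J) (d := (univ.filter fun j : J => uJ j = 1).card)
      (a := 2 * Fintype.card (U k)) (V := V₀) (by
        rw [← card_univ]
        exact card_filter_le _ _) (H.hV k)
    have e2 : (2 : ℝ) ^ (2 * Fintype.card (U k)) = 2 ^ Fintype.card (U k) *
        2 ^ Fintype.card (U k) := by
      rw [two_mul, pow_add]
    rw [e2] at h3
    linarith
  · have h2 := card_radJ (k0 := k0) (H.hN k) (H.hN l) H.hJ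
    rw [H.cardA k] at h2
    refine h2.trans ?_
    have h3 := pow_sub_le (j := Fintype.card J) (d := (univ.filter fun j : J =>
      ∑ v, N k (Sum.inr j) (Sum.inl v) + ∑ v, N l (Sum.inr j) (Sum.inl v) + uJ j ≠ 0).card)
      (a := Fintype.card (U k) + Fintype.card (U l)) (V := V₀) (by
        rw [← card_univ]
        exact card_filter_le _ _) (by
        have := (H.hd k l hkl).2
        unfold dd at this
        omega)
    rw [pow_add] at h3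
    linarith

theorem Sys.cardS (H : Sys V₀ uJ u NJ N) (k : Fin M) :
    ((univ.filter fun a : Zs (N k) k0 => ∀ l, (a : U k ⊕ J → ZMod 2) (Sum.inr l) = 0).card : ℝ) ≤
      2 ^ Fintype.card J / 2 ^ V₀ := by
  have h1 := card_SU (N k) k0
  unfold SU at h1
  refine h1.trans ?_
  rw [le_div_iff₀ (by positivity), ← pow_add]
  refine pow_le_pow_right₀ (by norm_num) ?_
  have h2 := H.hV k
  have h3 : (univ.filter fun j : J => uJ j = 1).card ≤ Fintype.card J := by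
    rw [← card_univ]
    exact card_filter_le _ _
  omega

/-! ### the jointly independent tuples -/

/-- the large coordinates of a tuple -/
def yJ {n : ℕ} {κ : Fin n → Fin M} (z : ∀ i, Zs (N (κ i)) k0) (i : Fin n) (l : J) : ZMod 2 :=
  (z i : U (κ i) ⊕ J → ZMod 2) (Sum.inr l)

/-- the equations of a tuple -/
def eJ {n : ℕ} {κ : Fin n → Fin M} (z : ∀ i, Zs (N (κ i)) k0) (i : Fin n) (l : J) : ZMod 2 :=
  Ev (N (κ i)) (z i : U (κ i) ⊕ J → ZMod 2) (Sum.inr l)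

/-- jointly independent tuples -/
def Ind {n : ℕ} (y : Fin n → J → ZMod 2) : Prop :=
  ∀ c : Fin n → ZMod 2, (∀ l, ∑ i, c i * y i l = 0) → ∀ i, c i = 0

theorem Sys.sum_eJ (H : Sys V₀ uJ u NJ N) {n : ℕ} {κ : Fin n → Fin M}
    (z : ∀ i, Zs (N (κ i)) k0) (i : Fin n) : ∑ l, eJ z i l = 0 := by
  have h := sum_ee (w := fun _ => (1 : ZMod 2)) (u := u (κ i)) (N := N (κ i)) (fun _ => rfl)
    (H.h1 (κ i)) (fun i' j hij => by
      rw [one_mul, one_mul]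
      exact H.h3 (κ i) i' j hij) (k := 1) (fun _ => z i) 0
  exact h

/-- the jointly independent tuples -/
noncomputable def GJ (N : ∀ k, U k ⊕ J → U k ⊕ J → ZMod 2) (k0 : J) {n : ℕ} (κ : Fin n → Fin M) :
    Finset (∀ i, Zs (N (κ i)) k0) :=
  univ.filter fun z => Ind (yJ z)

/-- the number of the jointly independent tuples of solutions -/
noncomputable def TG (N : ∀ k, U k ⊕ J → U k ⊕ J → ZMod 2) (k0 : J) {n : ℕ} (κ : Fin n → Fin M)
    (σ : ps J → ZMod 2) : ℝ :=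
  ((GJ N k0 κ).filter fun z => Pc (yJ z) (eJ z) σ).card

/-- the form of a tuple -/
noncomputable def bJ (N : ∀ k, U k ⊕ J → U k ⊕ J → ZMod 2) (k0 : J) {n : ℕ} (κ : Fin n → Fin M)
    (i j : Fin n) (a : Zs (N (κ i)) k0) (b : Zs (N (κ j)) k0) : ZMod 2 := bb a b

theorem sum_TG {n : ℕ} (κ : Fin n → Fin M) : ∑ σ : ps J → ZMod 2, TG N k0 κ σ =
    ∑ z ∈ GJ N k0 κ, ((univ.filter fun σ : ps J → ZMod 2 => Pc (yJ z) (eJ z) σ).card : ℝ) := by
  unfold TG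
  simp only [card_filter, Nat.cast_sum, Nat.cast_ite, Nat.cast_one, Nat.cast_zero]
  rw [sum_comm]

theorem Sys.count (H : Sys V₀ uJ u NJ N) {n : ℕ} {κ : Fin n → Fin M}
    {z : ∀ i, Zs (N (κ i)) k0} (hz : z ∈ GJ N k0 κ) :
    ((univ.filter fun σ : ps J → ZMod 2 => Pc (yJ z) (eJ z) σ).card : ℝ) *
      2 ^ (n * Fintype.card J) = 2 ^ (ps J).card * (2 ^ n * ∑ τ : ps (Fin n) → ZMod 2,
        ch (QJ (bJ N k0 κ) τ z)) := by
  have hz' := (mem_filter.1 hz).2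
  rw [count_val (yJ z) (eJ z) hz' k0 (fun i => (mem_Zs.1 (z i).2).1) (H.sum_eJ z)]
  congr 2

theorem Sys.momQ (H : Sys V₀ uJ u NJ N) {n : ℕ} (κ : Fin n → Fin M) :
    |∑ τ : ps (Fin n) → ZMod 2, ∑ z ∈ GJ N k0 κ, ch (QJ (bJ N k0 κ) τ z) -
      ((2 : ℝ) ^ Fintype.card J / 2) ^ n| * ((2 : ℝ) ^ Fintype.card J / 2) ≤
    2 ^ n ^ 2 * (((2 : ℝ) ^ Fintype.card J / 2) ^ n * (4 * (2 ^ Fintype.card J / 2 ^ V₀) +
      2 ^ n * (2 ^ Fintype.card J / 2 ^ V₀))) :=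
  momJ (β := bJ N k0 κ) (fun i j a b c => bb_add a b c) (fun i j a b => bb_symm a b)
    (fun i (a : Zs (N (κ i)) k0) l => (a : U (κ i) ⊕ J → ZMod 2) (Sum.inr l))
    (fun i a b l => rfl) (2 ^ Fintype.card J / 2 ^ V₀) ((2 : ℝ) ^ Fintype.card J / 2)
    (4 * (2 ^ Fintype.card J / 2 ^ V₀))
    (by positivity) (by positivity) (by positivity) (fun i => H.cardS (κ i))
    (fun i => H.cardZ (κ i))
    (fun i j _ => H.radJ (κ i) (κ j)) (GJ N k0 κ) (fun z hz => by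
      by_contra hcon
      refine hz (mem_filter.2 ⟨mem_univ _, fun c hc => ?_⟩)
      by_contra h4
      push Not at h4
      exact hcon ⟨c, h4, hc⟩)

theorem Sys.momG (H : Sys V₀ uJ u NJ N) {n : ℕ} (κ : Fin n → Fin M) :
    |(∑ σ : ps J → ZMod 2, TG N k0 κ σ) / 2 ^ (ps J).card - 1| ≤
      2 ^ (n ^ 2 + n + 4) / 2 ^ V₀ := by
  have h3 := H.momQ (k0 := k0) κ
  rw [sum_TG]
  have hS : (∑ z ∈ GJ N k0 κ, ((univ.filter fun σ : ps J → ZMod 2 =>
      Pc (yJ z) (eJ z) σ).card : ℝ)) * 2 ^ (n * Fintype.card J) =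
      2 ^ (ps J).card * (2 ^ n * ∑ τ : ps (Fin n) → ZMod 2, ∑ z ∈ GJ N k0 κ,
        ch (QJ (bJ N k0 κ) τ z)) := by
    rw [sum_mul, sum_congr rfl fun z hz => H.count hz, ← mul_sum, ← mul_sum, sum_comm]
  generalize hA0 : (∑ z ∈ GJ N k0 κ, ((univ.filter fun σ : ps J → ZMod 2 =>
      Pc (yJ z) (eJ z) σ).card : ℝ)) = A0 at hS ⊢
  generalize hB0 : (∑ τ : ps (Fin n) → ZMod 2, ∑ z ∈ GJ N k0 κ,
        ch (QJ (bJ N k0 κ) τ z)) = B0 at hS h3
  generalize hq : (2 : ℝ) ^ Fintype.card J / 2 = q at h3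
  have hq0 : 0 < q := by rw [← hq]; positivity
  have hps : (0 : ℝ) < 2 ^ (ps J).card := by positivity
  have hqn : 0 < q ^ n := pow_pos hq0 n
  have h2n : (0 : ℝ) < 2 ^ n := by positivity
  have hnJ : (2 : ℝ) ^ (n * Fintype.card J) = 2 ^ n * q ^ n := by
    rw [← hq, ← mul_pow, mul_div_cancel₀ _ (by norm_num : (2 : ℝ) ≠ 0), ← pow_mul, mul_comm]
  have h4 : A0 / 2 ^ (ps J).card * q ^ n = B0 := by
    rw [hnJ] at hS
    have h7 : 2 ^ n * (A0 * q ^ n) = 2 ^ n * (2 ^ (ps J).card * B0) := by linarith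
    have h8 := mul_left_cancel₀ h2n.ne' h7
    rw [div_mul_eq_mul_div, h8, mul_div_cancel_left₀ _ hps.ne']
  rw [← h4] at h3
  generalize hA : A0 / 2 ^ (ps J).card = A at h3 ⊢
  have h5 : |A * q ^ n - q ^ n| = |A - 1| * q ^ n := by
    rw [← abs_of_pos hqn, ← abs_mul, abs_of_pos hqn]
    congr 1
    ring
  rw [h5] at h3
  have h6 : |A - 1| * q ≤ 2 ^ n ^ 2 * (4 * (2 ^ Fintype.card J / 2 ^ V₀) +
      2 ^ n * (2 ^ Fintype.card J / 2 ^ V₀)) := by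
    refine le_of_mul_le_mul_right ?_ hqn
    linarith
  have h7 : (2 : ℝ) ^ n ^ 2 * (4 * (2 ^ Fintype.card J / 2 ^ V₀) +
      2 ^ n * (2 ^ Fintype.card J / 2 ^ V₀)) = (2 ^ n ^ 2 * (8 + 2 ^ (n + 1)) / 2 ^ V₀) * q := by
    rw [← hq, pow_succ (2 : ℝ) n]
    ring
  rw [h7] at h6
  refine (le_of_mul_le_mul_right h6 hq0).trans ?_
  refine div_le_div_of_nonneg_right ?_ (by positivity)
  have h8 : (8 : ℝ) + 2 ^ (n + 1) ≤ 2 ^ (n + 4) := by
    have h9 : (1 : ℝ) ≤ 2 ^ n := one_le_pow₀ (by norm_num)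
    rw [pow_succ, pow_add]
    linarith
  calc (2 : ℝ) ^ n ^ 2 * (8 + 2 ^ (n + 1)) ≤ 2 ^ n ^ 2 * 2 ^ (n + 4) := by
        apply mul_le_mul_of_nonneg_left h8 (by positivity)
    _ = 2 ^ (n ^ 2 + n + 4) := by rw [← pow_add, add_assoc]

end sys

end Pool.Agent.Run7.h238.J
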