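import Mathlib
import Pool.Agent.Run7.h238.J.LA2

/-!
# J-LA, part 3: the kernels are jointly independent with high probability
-/

set_option autoImplicit false
set_option linter.all false

open scoped Classical

namespace Pool.Agent.Run7.h238.J

open Finset
open Pool.Agent.N916.GB (ch ch_zero ch_one ch_add ch_abs z2 z2_add_self z2_eq_of_add ps sx
  card_ps_fin Ev Ev_add Ev_zero Ev_smul Ev_inr Zs mem_Zs Pc count_val yy ee pt Kr mem_Kr Kr_iff
  Kr_le GG li_GG In card_Kr Zs_coe_sum)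

section ker

variable {M : ℕ} {J : Type} [Fintype J] [LinearOrder J] {U : Fin M → Type} [∀ k, Fintype (U k)]
  {V₀ : ℕ} {uJ : J → ZMod 2} {u : ∀ k, U k ⊕ J → ZMod 2} {NJ : J → J → ZMod 2}
  {N : ∀ k, U k ⊕ J → U k ⊕ J → ZMod 2} {k0 : J}

/-- the tuple consists of solutions -/
def InK (N : ∀ k, U k ⊕ J → U k ⊕ J → ZMod 2) (k0 : J) (σ : ps J → ZMod 2)
    (x : ∀ k, Zs (N k) k0) : Prop :=
  ∀ k, (x k : U k ⊕ J → ZMod 2) ∈ Kr (pt (N k) (sx σ)) k0

/-- the sum of the large coordinates vanishes -/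
def SumY (N : ∀ k, U k ⊕ J → U k ⊕ J → ZMod 2) (k0 : J) (x : ∀ k, Zs (N k) k0) : Prop :=
  ∀ l, ∑ k, (x k : U k ⊕ J → ZMod 2) (Sum.inr l) = 0

/-- the kernels are jointly independent -/
def E1 (N : ∀ k, U k ⊕ J → U k ⊕ J → ZMod 2) (k0 : J) (σ : ps J → ZMod 2) : Prop :=
  ∀ x : ∀ k, Zs (N k) k0, InK N k0 σ x → SumY N k0 x → x = 0

theorem InK_eq {σ : ps J → ZMod 2} {x : ∀ k, Zs (N k) k0} (h : InK N k0 σ x) (k : Fin M) (l : J) :
    Ev (N k) (x k : U k ⊕ J → ZMod 2) (Sum.inr l) +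
      ∑ m, ((x k : U k ⊕ J → ZMod 2) (Sum.inr m) + (x k : U k ⊕ J → ZMod 2) (Sum.inr l)) *
        sx σ l m = 0 := by
  have h1 := (mem_Kr.1 (h k)).2 (Sum.inr l)
  rw [Ev_inr] at h1
  exact h1

/-- the sum of the equations vanishes -/
theorem sum_Ev {σ : ps J → ZMod 2} {x : ∀ k, Zs (N k) k0} (h : InK N k0 σ x)
    (hs : SumY N k0 x) (l : J) : ∑ k, Ev (N k) (x k : U k ⊕ J → ZMod 2) (Sum.inr l) = 0 := by
  have h1 : ∑ k, (Ev (N k) (x k : U k ⊕ J → ZMod 2) (Sum.inr l) +
      ∑ m, ((x k : U k ⊕ J → ZMod 2) (Sum.inr m) + (x k : U k ⊕ J → ZMod 2) (Sum.inr l)) *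
        sx σ l m) = 0 := sum_eq_zero fun k _ => InK_eq h k l
  rw [sum_add_distrib, sum_comm] at h1
  have h2 : ∑ m, ∑ k, ((x k : U k ⊕ J → ZMod 2) (Sum.inr m) +
      (x k : U k ⊕ J → ZMod 2) (Sum.inr l)) * sx σ l m = 0 := by
    refine sum_eq_zero fun m _ => ?_
    rw [← sum_mul, sum_add_distrib, hs m, hs l, add_zero, zero_mul]
  rw [h2, add_zero] at h1
  exact h1

theorem Sys.inj (H : Sys V₀ uJ u NJ N) {σ : ps J → ZMod 2} {k : Fin M} {a : Zs (N k) k0}
    (ha : (a : U k ⊕ J → ZMod 2) ∈ Kr (pt (N k) (sx σ)) k0)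
    (h0 : ∀ l, (a : U k ⊕ J → ZMod 2) (Sum.inr l) = 0) : a = 0 := by
  by_contra hne
  have hli : LinearIndependent (ZMod 2) (fun _ : Fin 1 => a) := by
    rw [linearIndependent_unique_iff]
    exact hne
  have hp : Pc (yy fun _ : Fin 1 => a) (ee fun _ : Fin 1 => a) σ :=
    (Kr_iff (fun _ : Fin 1 => a) σ).1 fun _ => ha
  have h1 := li_GG (w := fun _ => (1 : ZMod 2)) (u := u k) (N := N k) (fun _ => rfl)
    (fun i j hij => by
      rw [one_mul, one_mul]
      exact H.h3 k i j hij) (fun v h => absurd h (by decide)) (H.h5' k) hli hp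
  have h2 := (mem_filter.1 h1).2 (fun _ => 1) fun l => by
    refine sum_eq_zero fun i _ => ?_
    show 1 * (a : U k ⊕ J → ZMod 2) (Sum.inr l) = 0
    rw [h0, mul_zero]
  exact absurd (h2 0) (by decide)

/-- the minimal relations -/
noncomputable def XX (N : ∀ k, U k ⊕ J → U k ⊕ J → ZMod 2) (k0 : J)
    (p : Finset (Fin M) × Fin M × Fin M) : Finset (∀ k, Zs (N k) k0) :=
  univ.filter fun x => (p.2.1 ∈ p.1 ∧ p.2.2 ∈ p.1 ∧ p.2.2 ≠ p.2.1) ∧ (∀ k, k ∉ p.1 → x k = 0) ∧
    SumY N k0 x ∧ (∀ l, ∑ k, Ev (N k) (x k : U k ⊕ J → ZMod 2) (Sum.inr l) = 0) ∧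
    ∀ c : Fin M → ZMod 2, (∀ k, k ∉ p.1.erase p.2.1 → c k = 0) →
      (∀ l, ∑ k, c k * (x k : U k ⊕ J → ZMod 2) (Sum.inr l) = 0) → ∀ k, c k = 0

theorem Sys.exists_min (H : Sys V₀ uJ u NJ N) {σ : ps J → ZMod 2} (hσ : ¬ E1 N k0 σ) :
    ∃ p, ∃ x ∈ XX N k0 p, InK N k0 σ x := by
  unfold E1 at hσ
  push Not at hσ
  obtain ⟨x0, hx1, hx2, hx3⟩ := hσ
  have hex : ∃ m, ∃ x : ∀ k, Zs (N k) k0, InK N k0 σ x ∧ SumY N k0 x ∧ x ≠ 0 ∧
      (univ.filter fun k => x k ≠ 0).card = m := ⟨_, x0, hx1, hx2, hx3, rfl⟩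
  obtain ⟨x, h1, h2, h3, h4⟩ := Nat.find_spec hex
  have hmin : ∀ y : ∀ k, Zs (N k) k0, InK N k0 σ y → SumY N k0 y →
      (univ.filter fun k => y k ≠ 0).card < (univ.filter fun k => x k ≠ 0).card → y = 0 := by
    intro y hy1 hy2 hy3
    by_contra hy
    rw [h4] at hy3
    exact Nat.find_min hex hy3 ⟨y, hy1, hy2, hy, rfl⟩
  set A := univ.filter fun k => x k ≠ 0 with hA
  obtain ⟨k1, hk1⟩ : ∃ k, x k ≠ 0 := by
    by_contra hcon
    push Not at hcon
    exact h3 (funext hcon)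
  have hk1A : k1 ∈ A := mem_filter.2 ⟨mem_univ _, hk1⟩
  obtain ⟨t, ht, htk⟩ : ∃ t ∈ A, t ≠ k1 := by
    by_contra hcon
    push Not at hcon
    refine hk1 (H.inj (h1 k1) fun l => ?_)
    have h5 := h2 l
    rw [sum_eq_single k1] at h5
    · exact h5
    · intro k _ hk
      have h6 : x k = 0 := by
        by_contra h7
        exact hk (hcon k (mem_filter.2 ⟨mem_univ _, h7⟩))
      rw [h6]
      rfl
    · intro h
      exact absurd (mem_univ _) h
  refine ⟨(A, k1, t), x, mem_filter.2 ⟨mem_univ _, ⟨hk1A, ht, htk⟩, fun k hk => ?_, h2,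
    sum_Ev h1 h2, fun c hc hcs => ?_⟩, h1⟩
  · by_contra h5
    exact hk (mem_filter.2 ⟨mem_univ _, h5⟩)
  · have h5 : (fun k => c k • x k) = (0 : ∀ k, Zs (N k) k0) := by
      refine hmin _ (fun k => ?_) (fun l => ?_) ?_
      · rw [Submodule.coe_smul]
        exact Submodule.smul_mem _ _ (h1 k)
      · rw [← hcs l]
        refine sum_congr rfl fun k _ => ?_
        rw [Submodule.coe_smul, Pi.smul_apply, smul_eq_mul]
      · refine (card_le_card (t := A.erase k1) fun k hk => ?_).trans_lt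
          (card_erase_lt_of_mem hk1A)
        by_contra h6
        refine (mem_filter.1 hk).2 ?_
        show c k • x k = 0
        rw [hc k h6, zero_smul]
    intro k
    by_contra h6
    have h7 : c k = 1 := (z2 _).resolve_left h6
    have h8 : k ∈ A.erase k1 := by
      by_contra h9
      exact h6 (hc k h9)
    have h9 := congrFun h5 k
    simp only [h7, one_smul] at h9
    exact (mem_filter.1 (mem_of_mem_erase h8)).2 h9

/-- few completions for a minimal relation -/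
theorem Sys.few_sigma (H : Sys V₀ uJ u NJ N) {p : Finset (Fin M) × Fin M × Fin M}
    {x : ∀ k, Zs (N k) k0} (hx : x ∈ XX N k0 p) :
    ((univ.filter fun σ : ps J → ZMod 2 => InK N k0 σ x).card : ℝ) *
      2 ^ ((p.1.erase p.2.1).card * Fintype.card J) ≤ 2 ^ (ps J).card *
      (2 ^ (p.1.erase p.2.1).card * 2 ^ (p.1.erase p.2.1).card ^ 2) := by
  obtain ⟨-, -, h1, h2, h3, h4⟩ := mem_filter.1 hx
  set B := p.1.erase p.2.1 with hB
  set e : Fin B.card ≃ B := B.equivFin.symm with he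
  set y : Fin B.card → J → ZMod 2 := fun i l => (x (e i) : U (e i : Fin M) ⊕ J → ZMod 2)
    (Sum.inr l) with hy
  set E : Fin B.card → J → ZMod 2 := fun i l =>
    Ev (N (e i)) (x (e i) : U (e i : Fin M) ⊕ J → ZMod 2) (Sum.inr l) with hE
  have hInd : ∀ c : Fin B.card → ZMod 2, (∀ l, ∑ i, c i * y i l = 0) → ∀ i, c i = 0 := by
    intro c hc i
    have h5 : (if hk : (e i : Fin M) ∈ B then c (e.symm ⟨(e i : Fin M), hk⟩) else 0) = 0 :=
      h4 (fun k => if hk : k ∈ B then c (e.symm ⟨k, hk⟩) else 0)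
      (fun k hk => dif_neg hk) (fun l => by
        refine Eq.trans ?_ (hc l)
        rw [← Equiv.sum_comp e.symm (fun i : Fin B.card => c i * y i l)]
        set F : Fin M → ZMod 2 := fun k => (if hk : k ∈ B then c (e.symm ⟨k, hk⟩) else 0) *
              (x k : U k ⊕ J → ZMod 2) (Sum.inr l) with hF
        have h6 : ∀ k : B, c (e.symm k) * y (e.symm k) l = F k := by
          intro k
          simp only [hy, hF]
          rw [dif_pos k.2, e.apply_symm_apply]
        rw [sum_congr rfl fun k _ => h6 k, sum_coe_sort B F]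
        have h7 : ∑ k ∈ B, F k = ∑ k, F k := by
          apply Finset.sum_subset (Finset.subset_univ B)
          intro k _ hk
          show (if hk : k ∈ B then c (e.symm ⟨k, hk⟩) else 0) * _ = 0
          rw [dif_neg hk, zero_mul]
        exact h7.symm) (e i)
    rw [dif_pos (e i).2] at h5
    rw [← h5]
    exact congrArg c (e.symm_apply_apply i).symm
  have h6 := count_val y E hInd k0 (fun i => (mem_Zs.1 (x (e i)).2).1) fun i =>
    H.sum_eJ (κ := fun _ : Fin 1 => (e i : Fin M)) (fun _ => x (e i)) 0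
  have h7 : ((univ.filter fun σ : ps J → ZMod 2 => InK N k0 σ x).card : ℝ) ≤
      ((univ.filter fun σ : ps J → ZMod 2 => Pc y E σ).card : ℝ) := by
    refine Nat.cast_le.2 (card_le_card fun σ hσ => ?_)
    rw [mem_filter] at hσ ⊢
    exact ⟨mem_univ _, fun i l => InK_eq hσ.2 (e i) l⟩
  refine (mul_le_mul_of_nonneg_right h7 (by positivity)).trans ?_
  rw [h6]
  refine mul_le_mul_of_nonneg_left ?_ (by positivity)
  refine mul_le_mul_of_nonneg_left ?_ (by positivity)
  refine (le_abs_self _).trans ((abs_sum_le_sum_abs _ _).trans ?_)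
  rw [sum_congr rfl fun τ _ => ch_abs _, sum_const, card_univ, Fintype.card_fun, ZMod.card,
    Fintype.card_coe, nsmul_eq_mul, mul_one]
  push_cast
  exact pow_le_pow_right₀ (by norm_num) (card_ps_fin _)

/-- the number of the minimal relations -/
theorem Sys.card_XX (H : Sys V₀ uJ u NJ N) (p : Finset (Fin M) × Fin M × Fin M) :
    ((XX N k0 p).card : ℝ) ≤ ((2 : ℝ) ^ Fintype.card J / 2) ^ ((p.1.erase p.2.1).card - 1) *
      (2 ^ Fintype.card J / 2 ^ V₀) := by
  by_cases hp : p.2.1 ∈ p.1 ∧ p.2.2 ∈ p.1 ∧ p.2.2 ≠ p.2.1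
  swap
  · have : XX N k0 p = ∅ := filter_eq_empty_iff.2 fun x _ h => hp h.1
    rw [this, card_empty, Nat.cast_zero]
    positivity
  obtain ⟨A, k1, t⟩ := p
  obtain ⟨hk1, ht, htk⟩ := hp
  simp only at hk1 ht htk ⊢
  set B := (A.erase k1).erase t with hB
  have hBc : B.card = (A.erase k1).card - 1 := card_erase_of_mem (mem_erase.2 ⟨htk, ht⟩)
  set D := univ.filter fun j : J => dd N t k1 j ≠ 0 with hD
  set ff : (∀ k, Zs (N k) k0) → (∀ k : B, Zs (N k) k0) × ((U k1 → ZMod 2) × ((U t → ZMod 2) ×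
      ({l : J // l ∈ Dᶜ} → ZMod 2))) := fun x => (fun k => x k,
    (fun v => (x k1 : U k1 ⊕ J → ZMod 2) (Sum.inl v), (fun v => (x t : U t ⊕ J → ZMod 2)
      (Sum.inl v), fun l => (x t : U t ⊕ J → ZMod 2) (Sum.inr l.1)))) with hff
  have h1 : (XX N k0 (A, k1, t)).card ≤ (univ : Finset ((∀ k : B, Zs (N k) k0) ×
      ((U k1 → ZMod 2) × ((U t → ZMod 2) × ({l : J // l ∈ Dᶜ} → ZMod 2))))).card := by
    refine card_le_card_of_injOn ff (fun _ _ => mem_coe.2 (mem_univ _)) ?_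
    intro x hx x' hx' hxx
    obtain ⟨-, -, a1, a2, a3, -⟩ := mem_filter.1 (mem_coe.1 hx)
    obtain ⟨-, -, b1, b2, b3, -⟩ := mem_filter.1 (mem_coe.1 hx')
    rw [hff] at hxx
    simp only [Prod.mk.injEq] at hxx
    obtain ⟨c1, c2, c3, c4⟩ := hxx
    have hout : ∀ k, k ≠ k1 → k ≠ t → x k = x' k := by
      intro k hk1 hkt
      by_cases hk : k ∈ A
      · exact congrFun c1 ⟨k, mem_erase.2 ⟨hkt, mem_erase.2 ⟨hk1, hk⟩⟩⟩
      · rw [a1 k hk, b1 k hk]
    -- two terms
    have htwo : ∀ f : Fin M → ZMod 2, (∀ k, k ≠ k1 → k ≠ t → f k = 0) → ∑ k, f k = f k1 + f t := by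
      intro f hf
      rw [← sum_pair htk.symm]
      symm
      refine sum_subset (subset_univ _) fun k _ hk => ?_
      rw [mem_insert, mem_singleton] at hk
      push Not at hk
      exact hf k hk.1 hk.2
    have hY : ∀ l, ((x k1 : U k1 ⊕ J → ZMod 2) (Sum.inr l) +
        (x' k1 : U k1 ⊕ J → ZMod 2) (Sum.inr l)) + ((x t : U t ⊕ J → ZMod 2) (Sum.inr l) +
        (x' t : U t ⊕ J → ZMod 2) (Sum.inr l)) = 0 := by
      intro l
      rw [← htwo fun k => (x k : U k ⊕ J → ZMod 2) (Sum.inr l) +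
        (x' k : U k ⊕ J → ZMod 2) (Sum.inr l)]
      · rw [sum_add_distrib, a2 l, b2 l, add_zero]
      · intro k hk1 hkt
        rw [hout k hk1 hkt, z2_add_self]
    have hEv : ∀ l, ((x t : U t ⊕ J → ZMod 2) (Sum.inr l) +
        (x' t : U t ⊕ J → ZMod 2) (Sum.inr l)) * dd N t k1 l = 0 := by
      intro l
      have h2 : ∑ k, (Ev (N k) (x k : U k ⊕ J → ZMod 2) (Sum.inr l) +
          Ev (N k) (x' k : U k ⊕ J → ZMod 2) (Sum.inr l)) = 0 := by
        rw [sum_add_distrib, a3 l, b3 l, add_zero]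
      have h3 : ∀ k, Ev (N k) (x k : U k ⊕ J → ZMod 2) (Sum.inr l) +
          Ev (N k) (x' k : U k ⊕ J → ZMod 2) (Sum.inr l) =
          (∑ v, ((x k : U k ⊕ J → ZMod 2) (Sum.inl v) + (x' k : U k ⊕ J → ZMod 2) (Sum.inl v)) *
            N k (Sum.inr l) (Sum.inl v) + ((x k : U k ⊕ J → ZMod 2) (Sum.inr l) +
            (x' k : U k ⊕ J → ZMod 2) (Sum.inr l)) * ∑ v, N k (Sum.inr l) (Sum.inl v)) +
          Ev NJ (fun m => (x k : U k ⊕ J → ZMod 2) (Sum.inr m) +
            (x' k : U k ⊕ J → ZMod 2) (Sum.inr m)) l := by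
        intro k
        have h4 : (fun m => (x k : U k ⊕ J → ZMod 2) (Sum.inr m) +
            (x' k : U k ⊕ J → ZMod 2) (Sum.inr m)) = (fun m => (x k : U k ⊕ J → ZMod 2)
            (Sum.inr m)) + fun m => (x' k : U k ⊕ J → ZMod 2) (Sum.inr m) := rfl
        rw [Ev_split (H.hN k), Ev_split (H.hN k), h4, Ev_add]
        simp only [add_mul, sum_add_distrib]
        ring
      rw [sum_congr rfl fun k _ => h3 k, sum_add_distrib] at h2
      have h5 : ∑ k, Ev NJ (fun m => (x k : U k ⊕ J → ZMod 2) (Sum.inr m) +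
            (x' k : U k ⊕ J → ZMod 2) (Sum.inr m)) l = 0 := by
        unfold Ev
        rw [sum_comm]
        refine sum_eq_zero fun m _ => ?_
        rw [← sum_mul, sum_add_distrib, sum_add_distrib, sum_add_distrib, a2 m, b2 m, a2 l, b2 l,
          add_zero, add_zero, zero_mul]
      rw [h5, add_zero, htwo] at h2
      · have e1 : ∀ v, (x k1 : U k1 ⊕ J → ZMod 2) (Sum.inl v) +
            (x' k1 : U k1 ⊕ J → ZMod 2) (Sum.inl v) = 0 := fun v => by
          rw [congrFun c2 v, z2_add_self]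
        have e2 : ∀ v, (x t : U t ⊕ J → ZMod 2) (Sum.inl v) +
            (x' t : U t ⊕ J → ZMod 2) (Sum.inl v) = 0 := fun v => by
          rw [congrFun c3 v, z2_add_self]
        have g1 : ∑ v, ((x k1 : U k1 ⊕ J → ZMod 2) (Sum.inl v) +
            (x' k1 : U k1 ⊕ J → ZMod 2) (Sum.inl v)) * N k1 (Sum.inr l) (Sum.inl v) = 0 :=
          sum_eq_zero fun v _ => by rw [e1 v, zero_mul]
        have g2 : ∑ v, ((x t : U t ⊕ J → ZMod 2) (Sum.inl v) +
            (x' t : U t ⊕ J → ZMod 2) (Sum.inl v)) * N t (Sum.inr l) (Sum.inl v) = 0 :=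
          sum_eq_zero fun v _ => by rw [e2 v, zero_mul]
        rw [g1, g2, zero_add, zero_add, z2_eq_of_add (hY l)] at h2
        unfold dd
        rw [mul_add, add_comm]
        exact h2
      · intro k hk1 hkt
        rw [hout k hk1 hkt]
        simp only [z2_add_self, zero_mul, sum_const_zero, add_zero]
    have hxt : x t = x' t := by
      refine Subtype.ext (funext fun q => ?_)
      rcases q with v | l
      · exact congrFun c3 v
      · by_cases hl : l ∈ D
        · have h2 : dd N t k1 l = 1 := (z2 _).resolve_left (mem_filter.1 hl).2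
          have h3 := hEv l
          rw [h2, mul_one] at h3
          exact z2_eq_of_add h3
        · exact congrFun c4 ⟨l, mem_compl.2 hl⟩
    have hxk : x k1 = x' k1 := by
      refine Subtype.ext (funext fun q => ?_)
      rcases q with v | l
      · exact congrFun c2 v
      · have h3 := hY l
        rw [hxt, z2_add_self, add_zero] at h3
        exact z2_eq_of_add h3
    funext k
    by_cases hk1 : k = k1
    · rw [hk1, hxk]
    · by_cases hkt : k = t
      · rw [hkt, hxt]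
      · exact hout k hk1 hkt
  refine (Nat.cast_le.2 h1).trans ?_
  rw [card_univ, Fintype.card_prod, Fintype.card_prod, Fintype.card_prod, Fintype.card_pi,
    Fintype.card_fun, Fintype.card_fun, Fintype.card_fun, ZMod.card, Fintype.card_coe, card_compl]
  push_cast
  rw [prod_congr rfl fun (k : B) _ => H.cardZ (k0 := k0) (k : Fin M), prod_const, card_univ,
    Fintype.card_coe, hBc]
  refine mul_le_mul_of_nonneg_left ?_ (by positivity)
  have h3 := pow_sub_le (j := Fintype.card J) (d := D.card)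
    (a := Fintype.card (U k1) + Fintype.card (U t)) (V := V₀) (by
      rw [← card_univ]
      exact card_filter_le _ _) (by
      have := (H.hd t k1 htk).1
      rw [← hD] at this
      omega)
  rw [pow_add] at h3
  linarith

theorem Sys.few_E1 (H : Sys V₀ uJ u NJ N) :
    ((univ.filter fun σ : ps J → ZMod 2 => ¬ E1 N k0 σ).card : ℝ) / 2 ^ (ps J).card ≤
      2 ^ M * (M * M) * (2 ^ (1 + M ^ 2) / 2 ^ V₀) := by
  have hps : (0 : ℝ) < 2 ^ (ps J).card := by positivity
  rw [div_le_iff₀ hps]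
  have h1 : (univ.filter fun σ : ps J → ZMod 2 => ¬ E1 N k0 σ) ⊆
      (univ : Finset (Finset (Fin M) × Fin M × Fin M)).biUnion fun p =>
        (XX N k0 p).biUnion fun x => univ.filter fun σ : ps J → ZMod 2 => InK N k0 σ x := by
    intro σ hσ
    obtain ⟨p, x, hx, hxσ⟩ := H.exists_min (mem_filter.1 hσ).2
    exact mem_biUnion.2 ⟨p, mem_univ _, mem_biUnion.2 ⟨x, hx, mem_filter.2 ⟨mem_univ _, hxσ⟩⟩⟩
  have h2 : ((univ.filter fun σ : ps J → ZMod 2 => ¬ E1 N k0 σ).card : ℝ) ≤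
      ∑ p : Finset (Fin M) × Fin M × Fin M, ∑ x ∈ XX N k0 p,
        ((univ.filter fun σ : ps J → ZMod 2 => InK N k0 σ x).card : ℝ) := by
    refine (Nat.cast_le.2 ((card_le_card h1).trans (card_biUnion_le.trans
      (sum_le_sum fun p _ => card_biUnion_le)))).trans ?_
    push_cast
    exact le_rfl
  refine h2.trans ?_
  have h3 : ∀ p ∈ (univ : Finset (Finset (Fin M) × Fin M × Fin M)), ∑ x ∈ XX N k0 p,
      ((univ.filter fun σ : ps J → ZMod 2 => InK N k0 σ x).card : ℝ) ≤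
      2 ^ (1 + M ^ 2) / 2 ^ V₀ * 2 ^ (ps J).card := by
    intro p _
    rcases (XX N k0 p).eq_empty_or_nonempty with h0 | ⟨x0, hx0⟩
    · rw [h0, sum_empty]
      positivity
    obtain ⟨m, hm⟩ : ∃ m, m = (p.1.erase p.2.1).card := ⟨_, rfl⟩
    have hm1 : 1 ≤ m := by
      have := (mem_filter.1 hx0).2.1
      rw [hm, Nat.one_le_iff_ne_zero, ← Nat.pos_iff_ne_zero, card_pos]
      exact ⟨p.2.2, mem_erase.2 ⟨this.2.2, this.2.1⟩⟩
    have hmM : m ≤ M := by
      rw [hm]
      refine (card_le_univ _).trans ?_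
      rw [Fintype.card_fin]
    set a : ℝ := 2 ^ Fintype.card J with ha
    have ha0 : 0 < a := by positivity
    have h4 : ∀ x ∈ XX N k0 p, ((univ.filter fun σ : ps J → ZMod 2 =>
        InK N k0 σ x).card : ℝ) ≤ 2 ^ (ps J).card * (2 ^ m * 2 ^ m ^ 2) / a ^ m := by
      intro x hx
      rw [le_div_iff₀ (by positivity), ha, ← pow_mul, mul_comm (Fintype.card J) m, hm]
      exact H.few_sigma hx
    refine (sum_le_sum h4).trans ?_
    rw [sum_const, nsmul_eq_mul]
    have h5 := H.card_XX (k0 := k0) p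
    rw [← hm, ← ha] at h5
    have h6 : (a / 2) ^ (m - 1) * (a / 2 ^ V₀) * (2 ^ (ps J).card * (2 ^ m * 2 ^ m ^ 2) / a ^ m) =
        2 * 2 ^ m ^ 2 / 2 ^ V₀ * 2 ^ (ps J).card := by
      obtain ⟨m', rfl⟩ : ∃ m', m = m' + 1 := ⟨m - 1, by omega⟩
      rw [Nat.add_sub_cancel, div_pow, pow_succ a, pow_succ (2 : ℝ) m']
      field_simp
    refine (mul_le_mul_of_nonneg_right h5 (by positivity)).trans ?_
    rw [h6]
    refine mul_le_mul_of_nonneg_right ?_ hps.le
    refine div_le_div_of_nonneg_right ?_ (by positivity)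
    rw [pow_add, pow_one]
    refine mul_le_mul_of_nonneg_left ?_ (by norm_num)
    exact pow_le_pow_right₀ (by norm_num) (Nat.pow_le_pow_left hmM 2)
  refine (sum_le_sum h3).trans (le_of_eq ?_)
  rw [sum_const, card_univ, Fintype.card_prod, Fintype.card_prod, Fintype.card_finset,
    Fintype.card_fin, nsmul_eq_mul]
  push_cast
  ring

end ker

end Pool.Agent.Run7.h238.J
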