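import Mathlib
import Pool.Agent.Run7.h238.J.LA3
import Pool.Agent.Run7.h843.L1

/-!
# J-LA, part 4: the mixed moments
-/

set_option autoImplicit false
set_option linter.all false

open scoped Classical

namespace Pool.Agent.Run7.h238.J

open Finset
open Pool.Agent.N916.GB (z2 z2_add_self z2_eq_of_add ps sx Ev Zs mem_Zs Pc yy ee pt Kr mem_Kr
  Kr_iff Kr_le In card_Kr Zs_coe_sum T_bound)
open Run7.h843.L (In_nonneg)

section mom

variable {M : ℕ} {J : Type} [Fintype J] [LinearOrder J] {U : Fin M → Type} [∀ k, Fintype (U k)]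
  {V₀ : ℕ} {uJ : J → ZMod 2} {u : ∀ k, U k ⊕ J → ZMod 2} {NJ : J → J → ZMod 2}
  {N : ∀ k, U k ⊕ J → U k ⊕ J → ZMod 2} {k0 : J}

/-- the dimension of a kernel -/
noncomputable def dk (N : ∀ k, U k ⊕ J → U k ⊕ J → ZMod 2) (k0 : J) (σ : ps J → ZMod 2)
    (k : Fin M) : ℕ := Module.finrank (ZMod 2) (Kr (pt (N k) (sx σ)) k0)

/-- the product of the numbers of independent families -/
noncomputable def PI (N : ∀ k, U k ⊕ J → U k ⊕ J → ZMod 2) (k0 : J) (r : Fin M → ℕ)
    (σ : ps J → ZMod 2) : ℝ := ∏ k, In (r k) (dk N k0 σ k)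

theorem PI_nonneg (r : Fin M → ℕ) (σ : ps J → ZMod 2) : 0 ≤ PI N k0 r σ :=
  prod_nonneg fun k _ => In_nonneg _ _

/-- the families of solutions -/
noncomputable def FF (N : ∀ k, U k ⊕ J → U k ⊕ J → ZMod 2) (k0 : J) (r : Fin M → ℕ)
    (σ : ps J → ZMod 2) : Finset (∀ k, Fin (r k) → Zs (N k) k0) :=
  univ.filter fun w => ∀ k, LinearIndependent (ZMod 2) (w k) ∧ Pc (yy (w k)) (ee (w k)) σ

theorem PI_card (r : Fin M → ℕ) (σ : ps J → ZMod 2) : PI N k0 r σ = ((FF N k0 r σ).card : ℝ) := by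
  have h1 : FF N k0 r σ = Fintype.piFinset fun k => univ.filter fun z : Fin (r k) → Zs (N k) k0 =>
      LinearIndependent (ZMod 2) z ∧ Pc (yy z) (ee z) σ := by
    ext w
    unfold FF
    rw [mem_filter, Fintype.mem_piFinset]
    simp only [mem_filter, mem_univ, true_and]
  rw [h1, Fintype.card_piFinset, Nat.cast_prod]
  exact prod_congr rfl fun k _ => card_Kr (N k) k0 (r k) σ

/-- the indices -/
def es {M : ℕ} (r : Fin M → ℕ) : (Σ k : Fin M, Fin (r k)) ≃ Fin (∑ k, r k) := finSigmaFinEquiv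

/-- the system of an index -/
def ks {M : ℕ} (r : Fin M → ℕ) (i : Fin (∑ k, r k)) : Fin M := ((es r).symm i).1

/-- the tuple of a family -/
def phi {r : Fin M → ℕ} (w : ∀ k, Fin (r k) → Zs (N k) k0) :
    ∀ i, Zs (N (ks r i)) k0 := fun i => w ((es r).symm i).1 ((es r).symm i).2

theorem phi_inj {r : Fin M → ℕ} : Function.Injective (phi (N := N) (k0 := k0) (r := r)) := by
  intro w w' h
  have h1 : ∀ s : (Σ k : Fin M, Fin (r k)), w s.1 s.2 = w' s.1 s.2 := by
    intro s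
    have h2 : w ((es r).symm (es r s)).1 ((es r).symm (es r s)).2 =
        w' ((es r).symm (es r s)).1 ((es r).symm (es r s)).2 := congrFun h (es r s)
    rw [(es r).symm_apply_apply] at h2
    exact h2
  funext k j
  exact h1 ⟨k, j⟩

theorem phi_surj {r : Fin M → ℕ} : Function.Surjective (phi (N := N) (k0 := k0) (r := r)) := by
  intro z
  have h1 : ∀ s : (Σ k : Fin M, Fin (r k)), ∃ a : Zs (N s.1) k0,
      HEq a (z (es r s)) := by
    intro s
    have e1 : ks r (es r s) = s.1 := by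
      unfold ks
      rw [(es r).symm_apply_apply]
    exact ⟨cast (congrArg (fun k => (Zs (N k) k0 : Type)) e1) (z (es r s)), cast_heq _ _⟩
  choose a ha using h1
  refine ⟨fun k j => a ⟨k, j⟩, funext fun i => ?_⟩
  have h2 := ha ((es r).symm i)
  rw [(es r).apply_symm_apply] at h2
  exact eq_of_heq h2

/-- the relations of a family -/
def IndS {r : Fin M → ℕ} (w : ∀ k, Fin (r k) → Zs (N k) k0) : Prop :=
  ∀ c : ∀ k, Fin (r k) → ZMod 2, (∀ l, ∑ k, ∑ j, c k j *
    (w k j : U k ⊕ J → ZMod 2) (Sum.inr l) = 0) → ∀ k j, c k j = 0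

theorem Ind_iff {r : Fin M → ℕ} (w : ∀ k, Fin (r k) → Zs (N k) k0) :
    Ind (yJ (phi w)) ↔ IndS w := by
  have h1 : ∀ (c : Fin (∑ k, r k) → ZMod 2) l, ∑ i, c i * yJ (phi w) i l =
      ∑ k, ∑ j, c (es r ⟨k, j⟩) * (w k j : U k ⊕ J → ZMod 2) (Sum.inr l) := by
    intro c l
    rw [← Equiv.sum_comp (es r), Fintype.sum_sigma]
    refine sum_congr rfl fun k _ => sum_congr rfl fun j _ => ?_
    congr 1
    have h2 : ∀ s : (Σ k : Fin M, Fin (r k)), yJ (phi w) (es r s) l =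
        (w s.1 s.2 : U s.1 ⊕ J → ZMod 2) (Sum.inr l) := by
      intro s
      show (w ((es r).symm (es r s)).1 ((es r).symm (es r s)).2 :
        U ((es r).symm (es r s)).1 ⊕ J → ZMod 2) (Sum.inr l) = _
      rw [(es r).symm_apply_apply]
    exact h2 ⟨k, j⟩
  constructor
  · intro h c hc k j
    have h2 : c ((es r).symm (es r ⟨k, j⟩)).1 ((es r).symm (es r ⟨k, j⟩)).2 = 0 :=
      h (fun i => c ((es r).symm i).1 ((es r).symm i).2) (fun l => by
      rw [h1]
      refine Eq.trans (sum_congr rfl fun k _ => sum_congr rfl fun j _ => ?_) (hc l)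
      rw [(es r).symm_apply_apply]) (es r ⟨k, j⟩)
    rw [(es r).symm_apply_apply] at h2
    exact h2
  · intro h c hc i
    have h2 := h (fun k j => c (es r ⟨k, j⟩)) (fun l => by
      rw [← h1]
      exact hc l) ((es r).symm i).1 ((es r).symm i).2
    simp only [Sigma.eta] at h2
    rw [(es r).apply_symm_apply] at h2
    exact h2

theorem Pc_phi {r : Fin M → ℕ} (w : ∀ k, Fin (r k) → Zs (N k) k0) (σ : ps J → ZMod 2) :
    Pc (yJ (phi w)) (eJ (phi w)) σ ↔ ∀ k, Pc (yy (w k)) (ee (w k)) σ := by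
  constructor
  · intro h k j l
    have h1 : ∀ s : (Σ k : Fin M, Fin (r k)), ee (w s.1) s.2 l +
        ∑ m, (yy (w s.1) s.2 m + yy (w s.1) s.2 l) * sx σ l m = 0 := by
      intro s
      have h2 : ee (w ((es r).symm (es r s)).1) ((es r).symm (es r s)).2 l +
        ∑ m, (yy (w ((es r).symm (es r s)).1) ((es r).symm (es r s)).2 m +
          yy (w ((es r).symm (es r s)).1) ((es r).symm (es r s)).2 l) * sx σ l m = 0 :=
        h (es r s) l
      rw [(es r).symm_apply_apply] at h2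
      exact h2
    exact h1 ⟨k, j⟩
  · intro h i l
    exact h ((es r).symm i).1 ((es r).symm i).2 l

theorem TG_eq (r : Fin M → ℕ) (σ : ps J → ZMod 2) : TG N k0 (ks r) σ =
    ((univ.filter fun w : ∀ k, Fin (r k) → Zs (N k) k0 => IndS w ∧
      ∀ k, Pc (yy (w k)) (ee (w k)) σ).card : ℝ) := by
  unfold TG GJ
  rw [filter_filter]
  norm_cast
  symm
  refine card_bij (fun w _ => phi w) (fun w hw => ?_) (fun w _ w' _ h => phi_inj h)
    fun z hz => ?_
  · rw [mem_filter] at hw ⊢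
    exact ⟨mem_univ _, (Ind_iff w).2 hw.2.1, (Pc_phi w σ).2 hw.2.2⟩
  · obtain ⟨w, rfl⟩ := phi_surj z
    rw [mem_filter] at hz
    exact ⟨w, mem_filter.2 ⟨mem_univ _, (Ind_iff w).1 hz.2.1, (Pc_phi w σ).1 hz.2.2⟩, rfl⟩

theorem IndS_li {r : Fin M → ℕ} {w : ∀ k, Fin (r k) → Zs (N k) k0} (h : IndS w) (k : Fin M) :
    LinearIndependent (ZMod 2) (w k) := by
  rw [Fintype.linearIndependent_iff]
  intro c hc j
  have h1 := h (Pi.single k c) (fun l => by
    rw [sum_eq_single k]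
    · rw [Pi.single_eq_same]
      have h2 := Zs_coe_sum c (w k) (Sum.inr l)
      rw [hc] at h2
      exact h2.symm
    · intro k' _ hk'
      rw [Pi.single_eq_of_ne hk']
      exact sum_eq_zero fun j _ => by rw [Pi.zero_apply, zero_mul]
    · intro h
      exact absurd (mem_univ _) h) k j
  rw [Pi.single_eq_same] at h1
  exact h1

theorem TG_le (r : Fin M → ℕ) (σ : ps J → ZMod 2) : TG N k0 (ks r) σ ≤ PI N k0 r σ := by
  rw [TG_eq, PI_card]
  refine Nat.cast_le.2 (card_le_card fun w hw => ?_)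
  have h1 := (mem_filter.1 hw).2
  exact mem_filter.2 ⟨mem_univ _, fun k => ⟨IndS_li h1.1 k, h1.2 k⟩⟩

theorem PI_le (r : Fin M → ℕ) {σ : ps J → ZMod 2} (hσ : E1 N k0 σ) :
    PI N k0 r σ ≤ TG N k0 (ks r) σ := by
  rw [TG_eq, PI_card]
  refine Nat.cast_le.2 (card_le_card fun w hw => ?_)
  have h1 := (mem_filter.1 hw).2
  refine mem_filter.2 ⟨mem_univ _, fun c hc => ?_, fun k => (h1 k).2⟩
  have h2 := hσ (fun k => ∑ j, c k j • w k j) (fun k => by
    rw [AddSubmonoidClass.coe_finsetSum]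
    refine Submodule.sum_mem _ fun j _ => ?_
    rw [Submodule.coe_smul]
    exact Submodule.smul_mem _ _ ((Kr_iff (w k) σ).2 (h1 k).2 j)) (fun l => by
    rw [← hc l]
    exact sum_congr rfl fun k _ => Zs_coe_sum (c k) (w k) (Sum.inr l))
  intro k
  have h3 := (h1 k).1
  rw [Fintype.linearIndependent_iff] at h3
  exact h3 (c k) (congrFun h2 k)

theorem PI_TG (r : Fin M → ℕ) (σ : ps J → ZMod 2) :
    |PI N k0 r σ - TG N k0 (ks r) σ| ≤ if E1 N k0 σ then 0 else PI N k0 r σ := by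
  rw [abs_of_nonneg (sub_nonneg.2 (TG_le r σ))]
  split_ifs with h
  · linarith [PI_le r h]
  · have : 0 ≤ TG N k0 (ks r) σ := by
      unfold TG
      positivity
    linarith

/-! ### the second moment -/

theorem pow_le_In (c d : ℕ) : (2 : ℝ) ^ (c * d) ≤ 2 ^ c * In c d + 2 ^ c ^ 2 := by
  rcases le_or_gt d c with h | h
  · have h1 : (2 : ℝ) ^ (c * d) ≤ 2 ^ c ^ 2 :=
      pow_le_pow_right₀ (by norm_num) (by
        rw [sq]
        exact Nat.mul_le_mul_left c h)
    have h2 : 0 ≤ 2 ^ c * In c d := mul_nonneg (by positivity) (In_nonneg _ _)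
    linarith
  · have h1 : (2 : ℝ) ^ (c * d) ≤ 2 ^ c * In c d := by
      unfold In
      have h2 : (2 : ℝ) ^ c = ∏ i ∈ range c, (2 : ℝ) := by rw [prod_const, card_range]
      rw [h2, ← prod_mul_distrib, mul_comm c d, pow_mul]
      have h3 : ((2 : ℝ) ^ d) ^ c = ∏ i ∈ range c, (2 : ℝ) ^ d := by rw [prod_const, card_range]
      rw [h3]
      refine prod_le_prod (fun i _ => by positivity) fun i hi => ?_
      rw [mem_range] at hi
      have h4 : (2 : ℝ) ^ i * 2 ≤ 2 ^ d := by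
        rw [← pow_succ]
        exact pow_le_pow_right₀ (by norm_num) (by omega)
      linarith
    have h2 : (0 : ℝ) ≤ 2 ^ c ^ 2 := by positivity
    linarith

theorem In_le (r d : ℕ) : In r d ≤ 2 ^ (r * d) := by
  rcases le_or_gt r d with h | h
  · unfold In
    rw [mul_comm, pow_mul, ← card_range r, ← prod_const, card_range]
    refine prod_le_prod (fun i hi => ?_) fun i _ => ?_
    · rw [mem_range] at hi
      have : (2 : ℝ) ^ i ≤ 2 ^ d := pow_le_pow_right₀ (by norm_num) (by omega)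
      linarith
    · have : (0 : ℝ) ≤ 2 ^ i := by positivity
      linarith
  · rw [Run7.h843.L.In_zero h]
    positivity

/-- the exponential moments of one kernel are bounded -/
theorem Sys.exp_mom (H : Sys V₀ uJ u NJ N) (k : Fin M) (c : ℕ) :
    (∑ σ : ps J → ZMod 2, (2 : ℝ) ^ (c * dk N k0 σ k)) / 2 ^ (ps J).card ≤
      2 ^ c * (1 + 2 ^ (c ^ 2 + c + 4)) + 2 ^ c ^ 2 := by
  have hps : (0 : ℝ) < 2 ^ (ps J).card := by positivity
  have h1 := T_bound (w := fun _ => (1 : ZMod 2)) (u := u k) (N := N k) (fun _ => rfl) (H.h1 k)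
    (fun i j hij => by
      rw [one_mul, one_mul]
      exact H.h3 k i j hij) (fun v h => absurd h (by decide)) (H.h5' k) k0 c V₀ (by
      have e : (univ.filter fun j : J => u k (Sum.inr j) = 1) = univ.filter fun j : J => uJ j = 1 :=
        filter_congr fun j _ => by rw [H.hu]
      rw [e]
      exact H.hV k)
  have h2 : (∑ σ : ps J → ZMod 2, In c (dk N k0 σ k)) / 2 ^ (ps J).card ≤
      1 + 2 ^ (c ^ 2 + c + 4) := by
    have h3 : (1 : ℝ) ≤ 2 ^ V₀ := one_le_pow₀ (by norm_num)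
    set T := (∑ σ : ps J → ZMod 2, In c (dk N k0 σ k)) / 2 ^ (ps J).card with hT
    have h4 : |T - 1| * 2 ^ V₀ ≤ 2 ^ (c ^ 2 + c + 4) := h1
    have h5 : |T - 1| ≤ |T - 1| * 2 ^ V₀ := le_mul_of_one_le_right (abs_nonneg _) h3
    linarith [le_abs_self (T - 1)]
  calc (∑ σ : ps J → ZMod 2, (2 : ℝ) ^ (c * dk N k0 σ k)) / 2 ^ (ps J).card ≤
      (∑ σ : ps J → ZMod 2, (2 ^ c * In c (dk N k0 σ k) + 2 ^ c ^ 2)) / 2 ^ (ps J).card :=
        div_le_div_of_nonneg_right (sum_le_sum fun σ _ => pow_le_In c _) hps.le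
    _ = 2 ^ c * ((∑ σ : ps J → ZMod 2, In c (dk N k0 σ k)) / 2 ^ (ps J).card) + 2 ^ c ^ 2 := by
        rw [sum_add_distrib, ← mul_sum, sum_const, card_univ, Fintype.card_fun, ZMod.card,
          Fintype.card_coe, nsmul_eq_mul]
        push_cast
        field_simp
    _ ≤ _ := by gcongr

theorem prod_le_sum_pow {M : ℕ} (hM : 0 < M) (a : Fin M → ℝ) (ha : ∀ k, 0 ≤ a k) :
    ∏ k, a k ≤ ∑ k, a k ^ M := by
  haveI : Nonempty (Fin M) := ⟨⟨0, hM⟩⟩
  obtain ⟨k, -, hk⟩ := exists_max_image (univ : Finset (Fin M)) a univ_nonempty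
  calc ∏ i, a i ≤ ∏ _i : Fin M, a k := prod_le_prod (fun i _ => ha i) fun i _ => hk i (mem_univ i)
    _ = a k ^ M := by rw [prod_const, card_univ, Fintype.card_fin]
    _ ≤ ∑ i, a i ^ M := single_le_sum (f := fun i => a i ^ M) (fun i _ => pow_nonneg (ha i) M)
        (mem_univ k)

/-- the constant for the second moment -/
noncomputable def C2 (M R : ℕ) : ℝ := 1 + M * (2 ^ (2 * R * M) *
  (1 + 2 ^ ((2 * R * M) ^ 2 + 2 * R * M + 4)) + 2 ^ (2 * R * M) ^ 2)

theorem C2_pos (M R : ℕ) : 0 < C2 M R := by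
  unfold C2
  positivity

theorem Sys.sq_mom (H : Sys V₀ uJ u NJ N) {r : Fin M → ℕ} {R : ℕ} (hr : ∀ k, r k ≤ R) :
    (∑ σ : ps J → ZMod 2, PI N k0 r σ ^ 2) / 2 ^ (ps J).card ≤ C2 M R := by
  have hps : (0 : ℝ) < 2 ^ (ps J).card := by positivity
  have hcardσ : ((univ : Finset (ps J → ZMod 2)).card : ℝ) = 2 ^ (ps J).card := by
    rw [card_univ, Fintype.card_fun, ZMod.card, Fintype.card_coe]
    push_cast
    rfl
  rcases Nat.eq_zero_or_pos M with hM | hM
  · subst hM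
    have h1 : ∀ σ : ps J → ZMod 2, PI N k0 r σ ^ 2 = 1 := by
      intro σ
      unfold PI
      simp
    rw [sum_congr rfl fun σ _ => h1 σ, sum_const, nsmul_eq_mul, mul_one, hcardσ, div_self hps.ne']
    unfold C2
    norm_num
  · have h1 : ∀ σ : ps J → ZMod 2, PI N k0 r σ ^ 2 ≤ ∑ k, (2 : ℝ) ^ ((2 * R * M) * dk N k0 σ k) := by
      intro σ
      have h2 : PI N k0 r σ ^ 2 ≤ ∏ k, (2 : ℝ) ^ (2 * R * dk N k0 σ k) := by
        unfold PI
        rw [← prod_pow]
        refine prod_le_prod (fun k _ => sq_nonneg _) fun k _ => ?_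
        calc In (r k) (dk N k0 σ k) ^ 2 ≤ (2 ^ (r k * dk N k0 σ k)) ^ 2 :=
              pow_le_pow_left₀ (In_nonneg _ _) (In_le _ _) 2
          _ = 2 ^ (r k * dk N k0 σ k * 2) := by rw [← pow_mul]
          _ ≤ 2 ^ (2 * R * dk N k0 σ k) := by
              refine pow_le_pow_right₀ (by norm_num) ?_
              have := Nat.mul_le_mul_right (dk N k0 σ k) (hr k)
              nlinarith
      refine h2.trans ((prod_le_sum_pow hM _ fun k => by positivity).trans (le_of_eq ?_))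
      refine sum_congr rfl fun k _ => ?_
      rw [← pow_mul]
      congr 1
      ring
    calc (∑ σ : ps J → ZMod 2, PI N k0 r σ ^ 2) / 2 ^ (ps J).card ≤
        (∑ σ : ps J → ZMod 2, ∑ k, (2 : ℝ) ^ ((2 * R * M) * dk N k0 σ k)) / 2 ^ (ps J).card :=
          div_le_div_of_nonneg_right (sum_le_sum fun σ _ => h1 σ) hps.le
      _ = ∑ k, (∑ σ : ps J → ZMod 2, (2 : ℝ) ^ ((2 * R * M) * dk N k0 σ k)) / 2 ^ (ps J).card := by
          rw [sum_comm, sum_div]
      _ ≤ ∑ _k : Fin M, (2 ^ (2 * R * M) * (1 + 2 ^ ((2 * R * M) ^ 2 + 2 * R * M + 4)) +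
          2 ^ (2 * R * M) ^ 2) := sum_le_sum fun k _ => H.exp_mom k _
      _ = M * (2 ^ (2 * R * M) * (1 + 2 ^ ((2 * R * M) ^ 2 + 2 * R * M + 4)) +
          2 ^ (2 * R * M) ^ 2) := by
          rw [sum_const, card_univ, Fintype.card_fin, nsmul_eq_mul]
      _ ≤ C2 M R := by
          unfold C2
          linarith

/-- **The mixed moments tend to one.** -/
theorem Sys.mom (H : Sys V₀ uJ u NJ N) {r : Fin M → ℕ} {R : ℕ} (hr : ∀ k, r k ≤ R) (L : ℝ)
    (hL : 0 < L) :
    |(∑ σ : ps J → ZMod 2, PI N k0 r σ) / 2 ^ (ps J).card - 1| ≤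
      2 ^ ((M * R) ^ 2 + M * R + 4) / 2 ^ V₀ + (L * (2 ^ M * (M * M) * (2 ^ (1 + M ^ 2) / 2 ^ V₀)) +
        C2 M R / L) := by
  have hps : (0 : ℝ) < 2 ^ (ps J).card := by positivity
  have hn : ∑ k, r k ≤ M * R := by
    refine (sum_le_sum fun k _ => hr k).trans ?_
    rw [sum_const, card_univ, Fintype.card_fin, smul_eq_mul]
  have h1 := H.momG (k0 := k0) (ks r)
  have h2 : (2 : ℝ) ^ ((∑ k, r k) ^ 2 + ∑ k, r k + 4) / 2 ^ V₀ ≤
      2 ^ ((M * R) ^ 2 + M * R + 4) / 2 ^ V₀ := by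
    refine div_le_div_of_nonneg_right (pow_le_pow_right₀ (by norm_num) ?_) (by positivity)
    have := Nat.pow_le_pow_left hn 2
    omega
  have h3 : |(∑ σ : ps J → ZMod 2, PI N k0 r σ) / 2 ^ (ps J).card -
      (∑ σ : ps J → ZMod 2, TG N k0 (ks r) σ) / 2 ^ (ps J).card| ≤
      L * (2 ^ M * (M * M) * (2 ^ (1 + M ^ 2) / 2 ^ V₀)) + C2 M R / L := by
    rw [← sub_div, ← sum_sub_distrib, abs_div, abs_of_pos hps]
    have h4 : ∀ σ : ps J → ZMod 2, |PI N k0 r σ - TG N k0 (ks r) σ| ≤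
        L * (if ¬ E1 N k0 σ then 1 else 0) + PI N k0 r σ ^ 2 / L := by
      intro σ
      refine (PI_TG r σ).trans ?_
      have h0 := PI_nonneg (N := N) (k0 := k0) r σ
      by_cases h : E1 N k0 σ
      · rw [if_pos h, if_neg (not_not.2 h), mul_zero, zero_add]
        positivity
      · rw [if_neg h, if_pos h, mul_one]
        have h5 : 0 ≤ (PI N k0 r σ - L) ^ 2 := sq_nonneg _
        have h6 : L + PI N k0 r σ ^ 2 / L - PI N k0 r σ =
            ((PI N k0 r σ - L) ^ 2 + PI N k0 r σ * L) / L := by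
          field_simp
          ring
        have h7 : 0 ≤ ((PI N k0 r σ - L) ^ 2 + PI N k0 r σ * L) / L := by positivity
        linarith
    refine (div_le_div_of_nonneg_right ((abs_sum_le_sum_abs _ _).trans
      (sum_le_sum fun σ _ => h4 σ)) hps.le).trans ?_
    rw [sum_add_distrib, add_div]
    refine add_le_add ?_ ?_
    · have h5 := H.few_E1 (k0 := k0)
      rw [← mul_sum, mul_div_assoc]
      refine mul_le_mul_of_nonneg_left ?_ hL.le
      refine le_trans (le_of_eq ?_) h5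
      congr 1
      rw [card_filter, Nat.cast_sum]
      refine sum_congr rfl fun σ _ => ?_
      rw [Nat.cast_ite, Nat.cast_one, Nat.cast_zero]
    · rw [← sum_div, div_div, mul_comm L, ← div_div]
      exact div_le_div_of_nonneg_right (H.sq_mom hr) hL.le
  have h4 : (∑ σ : ps J → ZMod 2, PI N k0 r σ) / 2 ^ (ps J).card - 1 =
      ((∑ σ : ps J → ZMod 2, PI N k0 r σ) / 2 ^ (ps J).card -
      (∑ σ : ps J → ZMod 2, TG N k0 (ks r) σ) / 2 ^ (ps J).card) +
      ((∑ σ : ps J → ZMod 2, TG N k0 (ks r) σ) / 2 ^ (ps J).card - 1) := by ring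
  rw [h4]
  refine (abs_add_le _ _).trans ?_
  linarith

end mom

end Pool.Agent.Run7.h238.J
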