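import Mathlib
import Pool.Agent.Run7.h238.J.LA4

/-!
# J-LA, part 5: the systems are asymptotically independent
-/

set_option autoImplicit false
set_option linter.all false

open scoped Classical

namespace Pool.Agent.Run7.h238.J

open Finset Filter
open Pool.Agent.N916.GB (ps sx pt In mm mm_pos mm_one_le)
open Pool.Agent.Run7.h843.G (Gvk Gvk_iff)
open Run7.h843.L (gk In_nonneg In_rr_pos gk_sum bonr_even bonr_odd)

/-- the coefficients -/
noncomputable def ac (r j : ℕ) : ℝ := (-1) ^ j / 2 ^ (r * j) / mm j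

theorem ac_abs (r j : ℕ) : |ac r j| ≤ 1 := by
  unfold ac
  rw [abs_div, abs_div, abs_pow, abs_neg, abs_one, one_pow, abs_of_pos (mm_pos j),
    abs_of_pos (by positivity : (0 : ℝ) < 2 ^ (r * j)), div_div]
  rw [div_le_one (by
    have := mm_pos j
    positivity)]
  have h1 := mm_one_le j
  have h2 : (1 : ℝ) ≤ 2 ^ (r * j) := one_le_pow₀ (by norm_num)
  nlinarith

/-- the truncated sums -/
noncomputable def bK (K r d : ℕ) : ℝ := ∑ j ∈ range K, ac r j * In (r + j) d

/-- the truncated series -/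
noncomputable def sK (K r : ℕ) : ℝ := ∑ j ∈ range K, ac r j

theorem bK_even {K : ℕ} (hK : Even K) (r d : ℕ) :
    In r r * (if d = r then (1 : ℝ) else 0) ≤ bK (K + 1) r d := by
  refine (bonr_even hK r d).trans (le_of_eq (sum_congr rfl fun j _ => ?_))
  unfold ac
  ring

theorem bK_odd {K : ℕ} (hK : Odd K) (r d : ℕ) :
    bK (K + 1) r d ≤ In r r * (if d = r then (1 : ℝ) else 0) := by
  refine le_trans (le_of_eq (sum_congr rfl fun j _ => ?_)) (bonr_odd hK r d)
  unfold ac
  ring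

theorem sK_tendsto (r : ℕ) : Tendsto (fun K => sK K r) atTop (nhds (gk r * In r r)) := gk_sum r

/-- products of nonnegative numbers with upper and lower bounds -/
theorem prod_diff {α : Type} [DecidableEq α] (s : Finset α) (x y z : α → ℝ)
    (hx : ∀ k ∈ s, 0 ≤ x k) (hxy : ∀ k ∈ s, x k ≤ y k) (hz : ∀ k ∈ s, z k ≤ x k) :
    ∏ k ∈ s, y k - ∏ k ∈ s, x k ≤ ∑ k ∈ s, (y k - z k) * ∏ l ∈ s.erase k, y l := by
  induction s using Finset.induction_on with
  | empty => simp
  | insert a s ha ih =>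
    have ih' := ih (fun k hk => hx k (mem_insert_of_mem hk))
      (fun k hk => hxy k (mem_insert_of_mem hk)) (fun k hk => hz k (mem_insert_of_mem hk))
    rw [prod_insert ha, prod_insert ha, sum_insert ha, erase_insert ha]
    have h1 := hx a (mem_insert_self a s)
    have h2 := hxy a (mem_insert_self a s)
    have h3 := hz a (mem_insert_self a s)
    have hY : 0 ≤ ∏ k ∈ s, y k := prod_nonneg fun k hk =>
      (hx k (mem_insert_of_mem hk)).trans (hxy k (mem_insert_of_mem hk))
    have h4 : ∑ k ∈ s, (y k - z k) * ∏ l ∈ (insert a s).erase k, y l =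
        y a * ∑ k ∈ s, (y k - z k) * ∏ l ∈ s.erase k, y l := by
      rw [mul_sum]
      refine sum_congr rfl fun k hk => ?_
      have hka : k ≠ a := fun h => ha (h ▸ hk)
      rw [erase_insert_of_ne (Ne.symm hka), prod_insert fun h => ha (mem_of_mem_erase h)]
      ring
    rw [h4]
    have hS : 0 ≤ ∑ k ∈ s, (y k - z k) * ∏ l ∈ s.erase k, y l := by
      refine sum_nonneg fun k hk => mul_nonneg ?_ (prod_nonneg fun l hl => ?_)
      · have := hxy k (mem_insert_of_mem hk)
        have := hz k (mem_insert_of_mem hk)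
        linarith
      · have hl' := mem_of_mem_erase hl
        exact (hx l (mem_insert_of_mem hl')).trans (hxy l (mem_insert_of_mem hl'))
    have h5 : x a * (∏ k ∈ s, y k - ∏ k ∈ s, x k) ≤
        y a * ∑ k ∈ s, (y k - z k) * ∏ l ∈ s.erase k, y l :=
      (mul_le_mul_of_nonneg_left ih' h1).trans (mul_le_mul_of_nonneg_right h2 hS)
    have h6 : (y a - x a) * ∏ k ∈ s, y k ≤ (y a - z a) * ∏ k ∈ s, y k :=
      mul_le_mul_of_nonneg_right (by linarith) hY
    linarith

section fin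

variable {M : ℕ} {Ω : Type} [Fintype Ω]

/-- the mean value -/
noncomputable def mean (P : ℝ) (f : Ω → ℝ) : ℝ := (∑ σ, f σ) / P

theorem mean_sub (P : ℝ) (f g : Ω → ℝ) :
    mean P (fun σ => f σ - g σ) = mean P f - mean P g := by
  unfold mean
  rw [sum_sub_distrib, sub_div]

theorem mean_sum (P : ℝ) {κ : Type} (s : Finset κ) (f : κ → Ω → ℝ) :
    mean P (fun σ => ∑ k ∈ s, f k σ) = ∑ k ∈ s, mean P (f k) := by
  unfold mean
  rw [sum_comm, sum_div]

/-- the mean of a product of truncated sums -/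
theorem mean_prod {P δ : ℝ} (hP : 0 < P) (hδ : 0 ≤ δ) {d : Ω → Fin M → ℕ} {r : Fin M → ℕ} {B : ℕ}
    (hm : ∀ j : Fin M → ℕ, (∀ k, j k < B) →
      |mean P (fun σ => ∏ k, In (r k + j k) (d σ k)) - 1| ≤ δ)
    (K' : Fin M → ℕ) (hK : ∀ k, K' k ≤ B) :
    |mean P (fun σ => ∏ k, bK (K' k) (r k) (d σ k)) - ∏ k, sK (K' k) (r k)| ≤ B ^ M * δ := by
  have h1 : ∀ σ, ∏ k, bK (K' k) (r k) (d σ k) = ∑ j ∈ Fintype.piFinset fun k => range (K' k),
      ((∏ k, ac (r k) (j k)) * ∏ k, In (r k + j k) (d σ k)) := by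
    intro σ
    unfold bK
    rw [prod_univ_sum]
    exact sum_congr rfl fun j _ => prod_mul_distrib
  have h2 : ∏ k, sK (K' k) (r k) = ∑ j ∈ Fintype.piFinset fun k => range (K' k),
      ∏ k, ac (r k) (j k) := by
    unfold sK
    rw [prod_univ_sum]
  have h3 : mean P (fun σ => ∏ k, bK (K' k) (r k) (d σ k)) =
      ∑ j ∈ Fintype.piFinset fun k => range (K' k), (∏ k, ac (r k) (j k)) *
        mean P (fun σ => ∏ k, In (r k + j k) (d σ k)) := by
    unfold mean
    rw [sum_congr rfl fun σ _ => h1 σ, sum_comm, sum_div]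
    refine sum_congr rfl fun j _ => ?_
    rw [← mul_sum, mul_div_assoc]
  rw [h2, h3, ← sum_sub_distrib]
  refine (abs_sum_le_sum_abs _ _).trans ?_
  have h4 : ∀ j ∈ Fintype.piFinset fun k => range (K' k), |(∏ k, ac (r k) (j k)) *
        mean P (fun σ => ∏ k, In (r k + j k) (d σ k)) - ∏ k, ac (r k) (j k)| ≤ δ := by
    intro j hj
    rw [Fintype.mem_piFinset] at hj
    have h5 : (∏ k, ac (r k) (j k)) * mean P (fun σ => ∏ k, In (r k + j k) (d σ k)) -
        ∏ k, ac (r k) (j k) = (∏ k, ac (r k) (j k)) *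
          (mean P (fun σ => ∏ k, In (r k + j k) (d σ k)) - 1) := by ring
    rw [h5, abs_mul, abs_prod]
    have h6 : ∏ k, |ac (r k) (j k)| ≤ 1 := prod_le_one (fun k _ => abs_nonneg _) fun k _ =>
      ac_abs _ _
    have h7 := hm j fun k => (mem_range.1 (hj k)).trans_le (hK k)
    calc (∏ k, |ac (r k) (j k)|) * |mean P (fun σ => ∏ k, In (r k + j k) (d σ k)) - 1| ≤
        1 * |mean P (fun σ => ∏ k, In (r k + j k) (d σ k)) - 1| :=
          mul_le_mul_of_nonneg_right h6 (abs_nonneg _)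
      _ ≤ δ := by
          rw [one_mul]
          exact h7
  refine (sum_le_sum h4).trans ?_
  rw [sum_const, nsmul_eq_mul, Fintype.card_piFinset]
  refine mul_le_mul_of_nonneg_right ?_ hδ
  push_cast
  calc ∏ k, ((range (K' k)).card : ℝ) ≤ ∏ _k : Fin M, (B : ℝ) := by
        refine prod_le_prod (fun k _ => Nat.cast_nonneg _) fun k _ => ?_
        rw [card_range]
        exact_mod_cast hK k
    _ = B ^ M := by rw [prod_const, card_univ, Fintype.card_fin]

theorem mean_mono {P : ℝ} (hP : 0 < P) {f g : Ω → ℝ} (h : ∀ σ, f σ ≤ g σ) :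
    mean P f ≤ mean P g := div_le_div_of_nonneg_right (sum_le_sum fun σ _ => h σ) hP.le

/-- the method of moments for finitely many kernels -/
theorem moments (r : Fin M → ℕ) {ε : ℝ} (hε : 0 < ε) : ∃ (B : ℕ) (δ : ℝ), 0 < δ ∧
    ∀ (Ω : Type) [Fintype Ω] (P : ℝ) (d : Ω → Fin M → ℕ), 0 < P →
    (∀ j : Fin M → ℕ, (∀ k, j k < B) →
      |mean P (fun σ => ∏ k, In (r k + j k) (d σ k)) - 1| ≤ δ) →
    |((univ.filter fun σ : Ω => ∀ k, d σ k = r k).card : ℝ) / P - ∏ k, gk (r k)| ≤ ε := by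
  set g : ℝ := ∏ k, (gk (r k) * In (r k) (r k)) with hg
  set I : ℝ := ∏ k, In (r k) (r k) with hI
  have hI0 : 0 < I := prod_pos fun k _ => In_rr_pos (r k)
  -- the truncation
  set ε' : ℝ := ε * I / (2 * (1 + 2 * M)) with hε'
  have hε'0 : 0 < ε' := by positivity
  have t1 : ∀ k0 : Option (Fin M), Tendsto (fun K : ℕ => ∏ k, sK
      (if k0 = some k then 2 * K + 2 else 2 * K + 1) (r k)) atTop (nhds g) := by
    intro k0
    refine tendsto_finset_prod _ fun k _ => ?_
    have h2 := sK_tendsto (r k)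
    by_cases h : k0 = some k
    · simp only [if_pos h]
      refine h2.comp (tendsto_atTop_mono (fun K => ?_) tendsto_id)
      show K ≤ 2 * K + 2
      omega
    · simp only [if_neg h]
      refine h2.comp (tendsto_atTop_mono (fun K => ?_) tendsto_id)
      show K ≤ 2 * K + 1
      omega
  have t2 : ∀ᶠ K : ℕ in atTop, ∀ k0 : Option (Fin M), |∏ k, sK
      (if k0 = some k then 2 * K + 2 else 2 * K + 1) (r k) - g| < ε' := by
    rw [eventually_all]
    intro k0
    have h := (Metric.tendsto_nhds.1 (t1 k0)) ε' hε'0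
    exact h.mono fun K hK => by
      rw [Real.dist_eq] at hK
      exact hK
  obtain ⟨K, hK⟩ := t2.exists
  set B : ℕ := 2 * K + 2 with hB
  have hBpos : (0 : ℝ) < (B : ℝ) ^ M := by
    rw [hB]
    positivity
  refine ⟨B, ε' / B ^ M, by positivity, ?_⟩
  intro Ω _ P d hP hm
  have hδ : (0 : ℝ) ≤ ε' / B ^ M := by positivity
  have hBδ : (B : ℝ) ^ M * (ε' / B ^ M) = ε' := by field_simp
  set KK : Option (Fin M) → Fin M → ℕ := fun k0 k => if k0 = some k then 2 * K + 2 else 2 * K + 1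
    with hKK
  set Ef : Option (Fin M) → ℝ := fun k0 => mean P (fun σ => ∏ k, bK (KK k0 k) (r k) (d σ k)) with hEf
  have hE : ∀ k0, |Ef k0 - g| ≤ 2 * ε' := by
    intro k0
    have h1 := mean_prod hP hδ hm (KK k0) (fun k => by
      simp only [hKK]
      split_ifs <;> omega)
    rw [hBδ] at h1
    have h2 := hK k0
    have h3 : Ef k0 - g = (Ef k0 - ∏ k, sK (KK k0 k) (r k)) + (∏ k, sK (KK k0 k) (r k) - g) := by
      ring
    rw [h3]
    refine (abs_add_le _ _).trans ?_
    have h4 : |∏ k, sK (KK k0 k) (r k) - g| < ε' := h2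
    linarith
  -- the three functions
  set xx : Ω → Fin M → ℝ := fun σ k => In (r k) (r k) * (if d σ k = r k then (1 : ℝ) else 0) with hxx
  have hx0 : ∀ σ k, 0 ≤ xx σ k := by
    intro σ k
    simp only [hxx]
    have := (In_rr_pos (r k)).le
    split_ifs
    · rw [mul_one]
      exact this
    · rw [mul_zero]
  have hxy : ∀ σ k, xx σ k ≤ bK (2 * K + 1) (r k) (d σ k) := fun σ k =>
    bK_even ⟨K, by omega⟩ (r k) (d σ k)
  have hzx : ∀ σ k, bK (2 * K + 2) (r k) (d σ k) ≤ xx σ k := fun σ k =>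
    bK_odd (K := 2 * K + 1) ⟨K, by omega⟩ (r k) (d σ k)
  have hX : mean P (fun σ => ∏ k, xx σ k) =
      I * (((univ.filter fun σ : Ω => ∀ k, d σ k = r k).card : ℝ) / P) := by
    unfold mean
    rw [card_filter, Nat.cast_sum, ← mul_div_assoc, mul_sum]
    congr 1
    refine sum_congr rfl fun σ _ => ?_
    simp only [hxx]
    rw [prod_mul_distrib, ← hI]
    congr 1
    by_cases h : ∀ k, d σ k = r k
    · rw [if_pos h, Nat.cast_one]
      exact prod_eq_one fun k _ => if_pos (h k)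
    · rw [if_neg h, Nat.cast_zero]
      push Not at h
      obtain ⟨k, hk⟩ := h
      exact prod_eq_zero (mem_univ k) (if_neg hk)
  have hY : Ef none = mean P (fun σ => ∏ k, bK (2 * K + 1) (r k) (d σ k)) := by
    simp only [hEf, hKK]
    unfold mean
    simp
  have hup : mean P (fun σ => ∏ k, xx σ k) ≤ Ef none := by
    rw [hY]
    exact mean_mono hP fun σ => prod_le_prod (fun k _ => hx0 σ k) fun k _ => hxy σ k
  have hupd : ∀ σ (k0 : Fin M), ∏ k, bK (KK (some k0) k) (r k) (d σ k) =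
      bK (2 * K + 2) (r k0) (d σ k0) * ∏ k ∈ univ.erase k0, bK (2 * K + 1) (r k) (d σ k) := by
    intro σ k0
    rw [← mul_prod_erase univ _ (mem_univ k0)]
    simp only [hKK, if_true]
    congr 1
    refine prod_congr rfl fun k hk => ?_
    rw [if_neg]
    intro h
    exact (mem_erase.1 hk).1 (Option.some_injective _ h).symm
  have hlo : Ef none - ∑ k0 : Fin M, (Ef none - Ef (some k0)) ≤ mean P (fun σ => ∏ k, xx σ k) := by
    have h1 : ∀ σ, ∏ k, bK (2 * K + 1) (r k) (d σ k) -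
        ∑ k0 : Fin M, (∏ k, bK (2 * K + 1) (r k) (d σ k) -
          ∏ k, bK (KK (some k0) k) (r k) (d σ k)) ≤ ∏ k, xx σ k := by
      intro σ
      have h2 := prod_diff (univ : Finset (Fin M)) (xx σ) (fun k => bK (2 * K + 1) (r k) (d σ k))
        (fun k => bK (2 * K + 2) (r k) (d σ k)) (fun k _ => hx0 σ k) (fun k _ => hxy σ k)
        (fun k _ => hzx σ k)
      have h3 : ∀ k0 : Fin M, ∏ k, bK (2 * K + 1) (r k) (d σ k) -
          ∏ k, bK (KK (some k0) k) (r k) (d σ k) =
          (bK (2 * K + 1) (r k0) (d σ k0) - bK (2 * K + 2) (r k0) (d σ k0)) *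
            ∏ k ∈ univ.erase k0, bK (2 * K + 1) (r k) (d σ k) := by
        intro k0
        rw [hupd, ← mul_prod_erase univ (fun k => bK (2 * K + 1) (r k) (d σ k)) (mem_univ k0)]
        ring
      rw [sum_congr rfl fun k0 _ => h3 k0]
      linarith
    have h2 := mean_mono hP h1
    refine le_trans (le_of_eq ?_) h2
    rw [mean_sub, mean_sum, hY]
    congr 1
    refine sum_congr rfl fun k0 _ => ?_
    rw [mean_sub]
  have h0 := hE none
  have hs : ∑ k0 : Fin M, (Ef none - Ef (some k0)) ≤ M * (4 * ε') := by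
    calc ∑ k0 : Fin M, (Ef none - Ef (some k0)) ≤ ∑ _k0 : Fin M, 4 * ε' := by
          refine sum_le_sum fun k0 _ => ?_
          have h1 := hE (some k0)
          rw [abs_le] at h0 h1
          linarith [h0.2, h1.1]
      _ = M * (4 * ε') := by
          rw [sum_const, card_univ, Fintype.card_fin, nsmul_eq_mul]
  rw [hX] at hup hlo
  have hgI : g = I * ∏ k, gk (r k) := by
    rw [hg, hI, prod_mul_distrib, mul_comm]
  rw [abs_le] at h0
  have hε2 : 2 * ε' + M * (4 * ε') = ε * I := by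
    rw [hε']
    field_simp
    ring
  set q : ℝ := ((univ.filter fun σ : Ω => ∀ k, d σ k = r k).card : ℝ) / P with hq
  have h5 : |I * q - I * ∏ k, gk (r k)| ≤ ε * I := by
    rw [← hgI, abs_le]
    have hM0 : (0 : ℝ) ≤ M * (4 * ε') := by positivity
    constructor <;> linarith [h0.1, h0.2]
  rw [← mul_sub, abs_mul, abs_of_pos hI0, mul_comm ε] at h5
  exact le_of_mul_le_mul_left h5 hI0

end fin

/-- **J-LA: the systems are asymptotically independent.** -/
theorem t_JLA {M : ℕ} (r : Fin M → ℕ) : S_JLA r := by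
  intro ε hε
  obtain ⟨B, δ, hδ, hmom⟩ := moments r hε
  -- the bounds
  obtain ⟨R, hR⟩ : ∃ R : ℕ, ∀ j : Fin M → ℕ, (∀ k, j k < B) → ∀ k, r k + j k ≤ R :=
    ⟨∑ k, r k + B, fun j hj k => by
      have h1 : r k ≤ ∑ k, r k := single_le_sum (fun _ _ => Nat.zero_le _) (mem_univ k)
      have h2 := hj k
      omega⟩
  set L : ℝ := 3 * C2 M R / δ with hL
  have hC := C2_pos M R
  have hL0 : 0 < L := by positivity
  set A : ℝ := 2 ^ ((M * R) ^ 2 + M * R + 4) + L * (2 ^ M * (M * M) * 2 ^ (1 + M ^ 2)) with hA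
  obtain ⟨V1, hV1⟩ := pow_unbounded_of_one_lt (A / (δ / 2)) (by norm_num : (1 : ℝ) < 2)
  refine ⟨V1 + 1, ?_⟩
  intro J _ _ U _ uJ u NJ N hu hN h1 h3 h5 hV hd
  rcases Nat.eq_zero_or_pos M with hM | hM
  · subst hM
    have hall : (univ.filter fun σ : ps J → ZMod 2 => ∀ k, Gvk (r k) (pt (N k) (sx σ))) = univ :=
      filter_true_of_mem fun σ _ k => k.elim0
    rw [hall, card_univ, Fintype.card_fun, ZMod.card, Fintype.card_coe]
    push_cast
    rw [div_self (by positivity)]
    simp [hε.le]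
  set k1 : Fin M := ⟨0, hM⟩
  have hne : (univ.filter fun j : J => uJ j = 1).Nonempty := by
    rw [← card_pos]
    have := hV k1
    omega
  obtain ⟨k0, -⟩ := hne
  have H : Sys (V1 + 1) uJ u NJ N := ⟨hu, hN, fun i j hij => by
    have := h3 k1 (Sum.inr i) (Sum.inr j) (fun h => hij (Sum.inr.inj h))
    rw [hN, hN, hu, hu] at this
    exact this, h1, h3, h5, hV, hd⟩
  have hset : (univ.filter fun σ : ps J → ZMod 2 => ∀ k, Gvk (r k) (pt (N k) (sx σ))) =
      univ.filter fun σ : ps J → ZMod 2 => ∀ k, dk N k0 σ k = r k :=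
    filter_congr fun σ _ => forall_congr' fun k => Gvk_iff (r k) _ k0
  rw [hset]
  refine hmom (ps J → ZMod 2) (2 ^ (ps J).card) (fun σ k => dk N k0 σ k) (by positivity)
    fun j hj => ?_
  have h6 := H.mom (k0 := k0) (r := fun k => r k + j k) (R := R) (hR j hj) L hL0
  refine le_trans h6 ?_
  have hp1 : (0 : ℝ) < 2 ^ V1 := by positivity
  have h7 : (2 : ℝ) ^ ((M * R) ^ 2 + M * R + 4) / 2 ^ (V1 + 1) +
      (L * (2 ^ M * (M * M) * (2 ^ (1 + M ^ 2) / 2 ^ (V1 + 1))) + C2 M R / L) =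
      A / 2 ^ (V1 + 1) + C2 M R / L := by
    rw [hA]
    ring
  rw [h7]
  have h8 : C2 M R / L = δ / 3 := by
    rw [hL]
    field_simp
  have h9 : A / 2 ^ (V1 + 1) ≤ δ / 2 := by
    rw [div_lt_iff₀ (by positivity)] at hV1
    rw [div_le_iff₀ (by positivity), pow_succ]
    nlinarith
  rw [h8]
  linarith

end Pool.Agent.Run7.h238.J
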