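import Mathlib
import Pool.Agent.Run7.h238.J.Grand
import Pool.Agent.Run7.h289.J.Cl
import Pool.Agent.Run7.h289.D18.X24
import Pool.Agent.Run7.h289.D18.Sc
import Pool.Agent.Run7.h424.DC.Fin

/-!
# The joint law for twists of `X_0(15)`, `X_0(21)` and `X_0(24)`
-/

set_option autoImplicit false

open scoped Classical
open Finset Filter Topology

namespace Pool.Agent.Run7.h238.J.Mix

open Pool.Agent.N969.P15 (Qc)
open Pool.Agent.TH841.NF.D (Sha)
open Pool.Agent.Run7.h424.J (tw_spec tw_mod)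

/-- `X_0(N) : y² = x (x + s) (x + t)` for `N = 15, 21, 24` -/
def st (N : ℕ) : ℤ × ℤ := if N = 15 then (-9, -25) else if N = 21 then (9, 16) else (1, 4)

/-- the quadratic twist by `d` of `X_0(N)` -/
def E (N : ℕ) (d : ℤ) : WeierstrassCurve ℚ :=
  { a₁ := 0, a₂ := (((st N).1 + (st N).2) * d : ℤ), a₃ := 0, a₄ := ((st N).1 * (st N).2 * d ^ 2 : ℤ),
    a₆ := 0 }

/-- the residue classes -/
def Cls (N m : ℕ) : Prop :=
  if N = 15 then m % 60 = 23 ∨ m % 60 = 47
  else if N = 21 then m % 84 = 19 ∨ m % 84 = 31 ∨ m % 84 = 55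
  else m % 24 = 11

/-- the group of rational points is finite and `Ш[2^∞] = 0` -/
def Triv (N : ℕ) (d : ℤ) : Prop :=
  Finite (E N d).toAffine.Point ∧ ∀ k : ℕ, ∀ x : Sha (E N d), 2 ^ k • x = 0 → x = 0

/-- the levels -/
def Lev (N : ℕ) : Prop := N = 15 ∨ N = 21 ∨ N = 24

theorem cls4 {N m : ℕ} (h : Cls N m) : m % 4 = 3 := by
  unfold Cls at h
  split_ifs at h <;> omega

theorem cls_per (N m : ℕ) : Cls N m ↔ Cls N (m % 840) := by
  unfold Cls
  split_ifs <;> omega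

theorem cls_mul (N a m : ℕ) : Cls N (a * m) ↔ Cls N (a * (m % 840)) := by
  have h1 : a * m % 840 = a * (m % 840) % 840 := by
    rw [Nat.mul_mod, Nat.mul_mod a (m % 840), Nat.mod_mod]
  rw [cls_per, h1, ← cls_per]

set_option maxRecDepth 1000000 in
theorem sq60 : ∀ x < 60, ∀ y < 60, (x * y ^ 2 % 60 = 23 ∨ x * y ^ 2 % 60 = 47) →
    (x = 23 ∨ x = 47) := by decide

set_option maxRecDepth 1000000 in
theorem sq84 : ∀ x < 84, ∀ y < 84, (x * y ^ 2 % 84 = 19 ∨ x * y ^ 2 % 84 = 31 ∨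
    x * y ^ 2 % 84 = 55) → (x = 19 ∨ x = 31 ∨ x = 55) := by decide

set_option maxRecDepth 1000000 in
theorem sq24 : ∀ x < 24, ∀ y < 24, x * y ^ 2 % 24 = 11 → x = 11 := by decide

theorem red (m x y : ℕ) : x * y ^ 2 % m = (x % m) * (y % m) ^ 2 % m := by
  simp only [Nat.mul_mod, Nat.pow_mod, Nat.mod_mod]

theorem cls_sq {N x y : ℕ} (h : Cls N (x * y ^ 2)) : Cls N x := by
  unfold Cls at h ⊢
  split_ifs at h ⊢
  · rw [red] at h
    exact sq60 _ (Nat.mod_lt _ (by norm_num)) _ (Nat.mod_lt _ (by norm_num)) h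
  · rw [red] at h
    exact sq84 _ (Nat.mod_lt _ (by norm_num)) _ (Nat.mod_lt _ (by norm_num)) h
  · rw [red] at h
    exact sq24 _ (Nat.mod_lt _ (by norm_num)) _ (Nat.mod_lt _ (by norm_num)) h

theorem cls_tw {N a n : ℕ} (ha : Squarefree a) (hn : Squarefree n) (h : Cls N (a * n)) :
    Cls N (tw a n) := by
  have h1 := (tw_spec ha hn).2.2
  rw [← h1] at h
  exact cls_sq h

theorem triv_iff {N m : ℕ} (hN : Lev N) (hm : Squarefree m) (h : Cls N m) :
    Triv N (-(m : ℤ)) ↔ Qc m := by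
  unfold Triv E st Cls at *
  rcases hN with rfl | rfl | rfl
  · simp only [if_true] at h ⊢
    exact Run7.h424.DC.iffF hm h (by norm_num)
  · norm_num at h
    simp only [show ¬ ((21 : ℕ) = 15) from by norm_num, if_true, if_false]
    exact Pool.Agent.Run7.h289.D18.iff21 hm h (by norm_num)
  · norm_num at h
    simp only [show ¬ ((24 : ℕ) = 15) from by norm_num, show ¬ ((24 : ℕ) = 21) from by norm_num,
      if_false]
    exact Pool.Agent.Run7.h289.D18.iff24 hm h (by norm_num)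

/-- the class of a family -/
def Com (F : Finset (ℕ × ℕ)) (n : ℕ) : Prop := ∀ p ∈ F, Cls p.1 (p.2 * n)

/-- the families: twists `X_0(N)^(a)`, `a ≡ 1 mod 4` squarefree, with a common class -/
def Good (F : Finset (ℕ × ℕ)) : Prop :=
  F.Nonempty ∧ (∀ p ∈ F, Lev p.1 ∧ Squarefree p.2 ∧ p.2 % 4 = 1) ∧ ∃ b, b.Coprime 210 ∧ Com F b

theorem com_per (F : Finset (ℕ × ℕ)) (n : ℕ) : Com F n ↔ Com F (n % 840) := by
  unfold Com
  exact forall_congr' fun p => forall_congr' fun _ => cls_mul p.1 p.2 n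

theorem com4 {F : Finset (ℕ × ℕ)} (hF : Good F) {n : ℕ} (h : Com F n) : n % 4 = 3 := by
  obtain ⟨p, hp⟩ := hF.1
  have h1 := cls4 (h p hp)
  have h2 := (hF.2.1 p hp).2.2
  rw [Nat.mul_mod, h2] at h1
  omega

theorem cop840 {b : ℕ} (h : b.Coprime 210) : b.Coprime 840 := by
  have h2 : b.Coprime 2 := Nat.Coprime.coprime_dvd_right (by norm_num) h
  have h4 : b.Coprime (2 ^ 2) := Nat.Coprime.pow_right 2 h2
  have : (840 : ℕ) = 2 ^ 2 * 210 := by norm_num
  rw [this]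
  exact Nat.Coprime.mul_right h4 h

/-- **The joint law**: exactly the twists with multiplier in `T` are trivial. -/
theorem law {F : Finset (ℕ × ℕ)} (hF : Good F) {T : Finset ℕ} (hT : T ⊆ F.image Prod.snd) :
    Tendsto (fun X : ℕ => (((Icc 1 X).filter fun n => Squarefree n ∧ Com F n ∧
      ∀ p ∈ F, (Triv p.1 (-(tw p.2 n : ℤ)) ↔ p.2 ∈ T)).card : ℝ) /
      (((Icc 1 X).filter fun n => Squarefree n ∧ Com F n).card : ℝ)) atTop
      (𝓝 (Pool.Agent.N916.GB.eta ^ T.card *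
        (1 - Pool.Agent.N916.GB.eta) ^ (F.image Prod.snd \ T).card)) := by
  obtain ⟨b, hb, hbF⟩ := hF.2.2
  have hS : ∀ a ∈ F.image Prod.snd, Squarefree a ∧ a % 4 = 1 := by
    intro a ha
    obtain ⟨p, hp, rfl⟩ := mem_image.1 ha
    exact (hF.2.1 p hp).2
  have hu : T ∪ (F.image Prod.snd \ T) = F.image Prod.snd := union_sdiff_of_subset hT
  have h := dens_pat (fun N => Pool.Agent.Run7.h289.J.t_JDQ _) T (F.image Prod.snd \ T)
    disjoint_sdiff (fun a ha => (hS a (hu ▸ ha)).1) (fun a ha => (hS a (hu ▸ ha)).2)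
    840 (by norm_num) (by norm_num) (Com F) (com_per F) (fun n hn => com4 hF hn) b hbF (cop840 hb)
  refine h.congr fun X => ?_
  congr 3
  refine filter_congr fun n _ => ?_
  have hiff : Squarefree n → Com F n → ∀ p ∈ F, (Triv p.1 (-(tw p.2 n : ℤ)) ↔ Qc (tw p.2 n)) := by
    intro hn hc p hp
    have h1 := hF.2.1 p hp
    exact triv_iff h1.1 (tw_spec h1.2.1 hn).1 (cls_tw h1.2.1 hn (hc p hp))
  constructor
  · rintro ⟨h1, h2, h3, h4⟩
    refine ⟨h1, h2, fun p hp => ?_⟩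
    rw [hiff h1 h2 p hp]
    constructor
    · intro hq
      by_contra hT'
      exact h4 p.2 (mem_sdiff.2 ⟨mem_image_of_mem _ hp, hT'⟩) hq
    · exact fun hT' => h3 _ hT'
  · rintro ⟨h1, h2, h3⟩
    refine ⟨h1, h2, fun a ha => ?_, fun a ha hq => ?_⟩
    · obtain ⟨p, hp, rfl⟩ := mem_image.1 (hT ha)
      exact (hiff h1 h2 p hp).1 ((h3 p hp).2 ha)
    · obtain ⟨ha1, ha2⟩ := mem_sdiff.1 ha
      obtain ⟨p, hp, rfl⟩ := mem_image.1 ha1
      exact ha2 ((h3 p hp).1 ((hiff h1 h2 p hp).2 hq))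

end Pool.Agent.Run7.h238.J.Mix
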