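import Pool.Agent.Run7.h238.J.Mix
import Pool.Agent.Run7.h238.G15.A21
import Pool.Agent.Run7.h238.G15.A24

/-!
# Products of twists of `X_0(15)`, `X_0(21)` and `X_0(24)`: `L`-functions and classes
-/

set_option autoImplicit false

open WeierstrassCurve

namespace Pool.Agent.Run7.h238.J.Mix

open Pool.Agent.N969.P15 (Qc)
open Run7.h238.G15 (IsModel IsLFunction)

/-- from the short form to the form `y² = x³ + A x² + B x` -/
theorem smul_short (A B : ℚ) :
    (⟨Units.mk0 3 (by norm_num), 3 * A, 0, 0⟩ : VariableChange ℚ) •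
      (⟨0, 0, 0, 81 * B - 27 * A ^ 2, 54 * A ^ 3 - 243 * A * B⟩ : WeierstrassCurve ℚ) =
      ⟨0, A, 0, B, 0⟩ := by
  have hu : ((Units.mk0 (3 : ℚ) (by norm_num))⁻¹ : ℚˣ).1 = 1 / 3 := by
    rw [Units.val_inv_eq_inv_val]
    norm_num
  ext
  · simp [variableChange_a₁]
  · simp only [variableChange_a₂, hu]
    ring
  · simp [variableChange_a₃]
  · simp only [variableChange_a₄, hu]
    ring
  · simp only [variableChange_a₆, hu]
    ring

theorem isModel_E {A B a b : ℚ} {M : WeierstrassCurve ℤ} (ha : a = 81 * B - 27 * A ^ 2)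
    (hb : b = 54 * A ^ 3 - 243 * A * B) (h : IsModel ⟨0, 0, 0, a, b⟩ M) :
    IsModel ⟨0, A, 0, B, 0⟩ M := by
  subst ha hb
  have h1 := h.smul ⟨Units.mk0 3 (by norm_num), 3 * A, 0, 0⟩
  rwa [smul_short] at h1

/-- the complete `L`-functions of the twists satisfying the criterion -/
theorem exists_L {N m : ℕ} (hN : Lev N) (hm : Squarefree m) (hc : Cls N m) (hq : Qc m) :
    ∃ L : ℂ → ℂ, IsLFunction (E N (-(m : ℤ))) L ∧ L 1 ≠ 0 := by
  unfold E st Cls at *
  rcases hN with rfl | rfl | rfl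
  · simp only [if_true] at hc ⊢
    refine Run7.h238.G15.exists_L_ne hm hc hq ?_
    refine isModel_E ?_ ?_ (Run7.h238.G15.isModel_short (D := -(m : ℤ)) (by omega))
    · push_cast
      ring
    · push_cast
      ring
  · norm_num at hc
    simp only [show ¬ ((21 : ℕ) = 15) from by norm_num, if_true, if_false]
    refine Run7.h238.G21.exists_L_ne hm hc hq ?_
    refine isModel_E ?_ ?_ (Run7.h238.G21.isModel_short (D := -(m : ℤ)) (by omega))
    · push_cast
      ring
    · push_cast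
      ring
  · norm_num at hc
    simp only [show ¬ ((24 : ℕ) = 15) from by norm_num, show ¬ ((24 : ℕ) = 21) from by norm_num,
      if_false]
    refine Run7.h238.G24.exists_L_ne hm hc hq ?_
    refine isModel_E ?_ ?_ (Run7.h238.G24.isModel_short (-(m : ℤ)))
    · push_cast
      ring
    · push_cast
      ring

theorem cls6 {N m : ℕ} (h : Cls N m) : m % 2 = 1 ∧ m % 3 ≠ 0 := by
  unfold Cls at h
  split_ifs at h <;> omega

theorem cls5 {N m : ℕ} (h : Cls N m) (h5 : m % 5 = 0) : N ≠ 15 := by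
  rintro rfl
  unfold Cls at h
  rw [if_pos rfl] at h
  omega

theorem cls7 {N m : ℕ} (h : Cls N m) (h7 : m % 7 = 0) : N ≠ 21 := by
  rintro rfl
  unfold Cls at h
  norm_num at h
  omega

theorem mod_add (a n k c : ℕ) (h : c ∣ k) : a * (n + k) % c = a * n % c := by
  obtain ⟨d, rfl⟩ := h
  rw [mul_add, show a * (c * d) = c * (a * d) by ring, Nat.add_mul_mod_self_left]

theorem cls_add5 {N a n : ℕ} (h : Cls N (a * n)) (hN : N ≠ 15) : Cls N (a * (n + 168)) := by
  unfold Cls at h ⊢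
  rw [if_neg hN] at h ⊢
  rw [mod_add a n 168 84 (by norm_num), mod_add a n 168 24 (by norm_num)]
  exact h

theorem cls_add7 {N a n : ℕ} (h : Cls N (a * n)) (hN : N ≠ 21) : Cls N (a * (n + 120)) := by
  unfold Cls at h ⊢
  rw [if_neg hN] at h ⊢
  rw [mod_add a n 120 60 (by norm_num), mod_add a n 120 24 (by norm_num)]
  exact h

theorem com_cop {F : Finset (ℕ × ℕ)} (hF : F.Nonempty) {n : ℕ} (h : Com F n) :
    ∃ b, b.Coprime 210 ∧ Com F b := by
  obtain ⟨p, hp⟩ := hF
  have h0 := cls6 (h p hp)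
  have h2 : n % 2 = 1 := by
    have := h0.1
    rw [Nat.mul_mod] at this
    rcases Nat.mod_two_eq_zero_or_one n with h' | h'
    · rw [h', mul_zero] at this
      norm_num at this
    · exact h'
  have h3 : n % 3 ≠ 0 := by
    intro h'
    apply h0.2
    rw [Nat.mul_mod, h', mul_zero, Nat.zero_mod]
  -- modulo five
  obtain ⟨m, hm2, hm3, hm5, hm⟩ : ∃ m, m % 2 = 1 ∧ m % 3 ≠ 0 ∧ m % 5 ≠ 0 ∧ Com F m := by
    by_cases h5 : n % 5 = 0
    · refine ⟨n + 168, by omega, by omega, by omega, fun q hq => ?_⟩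
      refine cls_add5 (h q hq) (cls5 (h q hq) ?_)
      rw [Nat.mul_mod, h5, mul_zero, Nat.zero_mod]
    · exact ⟨n, h2, h3, h5, h⟩
  obtain ⟨b, hb2, hb3, hb5, hb7, hb⟩ : ∃ m, m % 2 = 1 ∧ m % 3 ≠ 0 ∧ m % 5 ≠ 0 ∧ m % 7 ≠ 0 ∧
      Com F m := by
    by_cases h7 : m % 7 = 0
    · refine ⟨m + 120, by omega, by omega, by omega, by omega, fun q hq => ?_⟩
      refine cls_add7 (hm q hq) (cls7 (hm q hq) ?_)
      rw [Nat.mul_mod, h7, mul_zero, Nat.zero_mod]
    · exact ⟨m, hm2, hm3, hm5, h7, hm⟩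
  refine ⟨b, ?_, hb⟩
  have c2 : Nat.Coprime b 2 := by
    rw [Nat.coprime_comm, Nat.Prime.coprime_iff_not_dvd Nat.prime_two]
    omega
  have c3 : Nat.Coprime b 3 := by
    rw [Nat.coprime_comm, Nat.Prime.coprime_iff_not_dvd Nat.prime_three]
    omega
  have c5 : Nat.Coprime b 5 := by
    rw [Nat.coprime_comm, Nat.Prime.coprime_iff_not_dvd Nat.prime_five]
    omega
  have c7 : Nat.Coprime b 7 := by
    rw [Nat.coprime_comm, Nat.Prime.coprime_iff_not_dvd (by norm_num)]
    omega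
  have : (210 : ℕ) = 2 * (3 * (5 * 7)) := by norm_num
  rw [this]
  exact Nat.Coprime.mul_right c2 (Nat.Coprime.mul_right c3 (Nat.Coprime.mul_right c5 c7))

open scoped Classical in
/-- the class has positive density -/
theorem class_pos {F : Finset (ℕ × ℕ)} (hF : Good F) : ∃ c : ℝ, 0 < c ∧
    ∀ᶠ X : ℕ in Filter.atTop, c * X ≤
      (((Finset.Icc 1 X).filter fun n => Squarefree n ∧ Com F n).card : ℝ) := by
  obtain ⟨b, hb, hbF⟩ := hF.2.2
  have hb' : (b % 840).Coprime 840 := by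
    have h1 := cop840 hb
    unfold Nat.Coprime at h1 ⊢
    rwa [← Nat.gcd_rec 840 b, Nat.gcd_comm]
  have h := Pool.Agent.N873.F15.Dn.sf_dens (N := 840) (r := b % 840) (by norm_num)
    (Nat.mod_lt _ (by norm_num)) hb'
  have hpos : 0 < 6 / Real.pi ^ 2 / Pool.Agent.N873.F15.Dn.ep 840 / (840 : ℕ) := by
    have := Pool.Agent.N873.F15.Dn.ep_pos 840
    have := Real.pi_pos
    positivity
  refine ⟨_, half_pos hpos, ?_⟩
  have h1 := h.eventually (lt_mem_nhds (half_lt_self hpos))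
  filter_upwards [h1, Filter.eventually_gt_atTop 0] with X hX hX0
  have hX1 : (0 : ℝ) < X := by exact_mod_cast hX0
  rw [lt_div_iff₀ hX1] at hX
  refine hX.le.trans ?_
  have h2 : Pool.Agent.N873.F15.Dn.sf 840 (b % 840) X ≤
      ((Finset.Icc 1 X).filter fun n => Squarefree n ∧ Com F n).card := by
    unfold Pool.Agent.N873.F15.Dn.sf
    refine Finset.card_le_card fun n hn => ?_
    rw [Finset.mem_filter] at hn ⊢
    refine ⟨hn.1, hn.2.1, ?_⟩
    rw [com_per F n, hn.2.2, ← com_per F b]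
    exact hbF
  exact_mod_cast h2

end Pool.Agent.Run7.h238.J.Mix
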